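import Pool.Agent.Lib.H78.Trees

namespace Pool.Agent.Lib.H78
set_option linter.unusedSectionVars false

namespace T

def ofWord : List Bool → Int → T
  | [], c => mk c z z
  | false :: w, c => mk 0 (ofWord w c) z
  | true :: w, c => mk 0 z (ofWord w c)

def cert : T :=
  [((-6 : Int), [true,false,true,false,false,false,true,true,false]),
   (1, [true,false,true,false,true,false,true,false,false]),
   (3, [false,false,true,true,false,true,false,true,false]),
   (7, [true,false,false,true,false,true,true,false,false]),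
   (4, [true,true,false,false,false,true,true,false,false]),
   (5, [false,true,true,false,true,false,true,false,false]),
   (-5, [false,true,false,true,false,false,true,true,false]),
   (4, [true,false,true,false,false,true,false,true,false]),
   (-7, [true,false,false,false,true,false,true,true,false]),
   (-4, [false,true,true,false,false,true,true,false,false]),
   (-9, [false,true,false,true,true,false,false,true,false]),
   (1, [false,true,false,true,false,true,false,true,false]),
   (1, [false,false,true,true,false,false,true,true,false])].foldr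
    (fun p t => add (ofWord p.2 p.1) t) z

def homB : Int → Int → T → Bool
  | _, _, z => true
  | a, b, n c l r => (c == 0 || (a == 0 && b == 0)) && homB (a - 1) b l && homB a (b - 1) r

theorem Hom_of_homB {a b : Int} {t : T} (h : homB a b t = true) : Hom a b t := by
  induction t generalizing a b with
  | z => trivial
  | n c l r ihl ihr =>
    simp only [homB, Bool.and_eq_true, Bool.or_eq_true, beq_iff_eq] at h
    exact ⟨h.1.1, ihl h.1.2, ihr h.2⟩

theorem hom_cert : Hom 5 4 cert := Hom_of_homB (by decide +kernel)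

theorem chk_cert : chk 9 5 4 cert = true := by decide +kernel

theorem pair_cert : pair cert 5 4 cert = 66584448 := by decide +kernel

end T

noncomputable section

/-- total degree -/
def deg (L : List (Fin 2 × ℕ)) : ℕ := (L.map Prod.snd).sum

variable {U : Type*} [Ring U] [Algebra ℂ U]

theorem expand (X : Fin 2 → U) (L : List (Fin 2 × ℕ)) :
    ∃ (N : ℕ) (J : List (Fin 2)), J.length = deg L ∧
      ((N : ℕ) : ℂ) • mon X L = (J.map X).prod ∧ (∀ q : ℕ, q.Prime → q ∣ N → q ≤ deg L) := by
  induction L with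
  | nil => exact ⟨1, [], rfl, by simp [mon_nil], fun q hq h => by
      have := Nat.dvd_one.1 h; exact absurd this hq.one_lt.ne'⟩
  | cons p L ih =>
    obtain ⟨N, J, h1, h2, h3⟩ := ih
    obtain ⟨i, k⟩ := p
    refine ⟨k.factorial * N, List.replicate k i ++ J, ?_, ?_, ?_⟩
    · simp [deg, h1]
    · rw [mon_cons, List.map_append, List.prod_append, ← h2, List.map_replicate,
        List.prod_replicate, dp_natCast]
      have hk : (k.factorial : ℂ) ≠ 0 := by exact_mod_cast Nat.factorial_ne_zero k
      simp only [smul_mul_assoc, mul_smul_comm, smul_smul]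
      congr 1
      push_cast
      field_simp
    · intro q hq hd
      have hdeg : deg ((i, k) :: L) = k + deg L := by simp [deg]
      rw [hdeg]
      rcases (hq.dvd_mul).1 hd with h | h
      · have := (hq.dvd_factorial).1 h
        omega
      · have := h3 q hq h
        omega

variable {V : Type*} [AddCommGroup V] [Module ℂ V] [Module U V] [IsScalarTower ℂ U V]
variable {E F H : Fin 2 → U} {P : U} {v : V} {φ : V →ₗ[ℂ] ℂ} {lam : Fin 2 → ℤ}
variable (hw : HW E F H P v φ lam)

include hw

theorem P_monF {y : V} {c : ℂ} (hy : P • y = c • y) (L : List (Fin 2 × ℕ)) :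
    P • mon F L • y = (c + deg L) • mon F L • y := by
  induction L with
  | nil => simp [mon_nil, deg, hy]
  | cons p L ih =>
    have h1 : P * F p.1 = F p.1 * P + (1 : ℂ) • F p.1 := by rw [hw.pf, one_smul]
    have hdeg : deg (p :: L) = p.2 + deg L := by simp [deg]
    rw [mon_cons, mul_smul, ← mul_smul P, h_mul_dp h1, add_smul, mul_smul, ih,
      smul_comm (dp (F p.1) _), smul_assoc, ← add_smul, hdeg]
    congr 1
    push_cast
    ring

theorem P_monE {y : V} {c : ℂ} (hy : P • y = c • y) (L : List (Fin 2 × ℕ)) :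
    P • mon E L • y = (c - deg L) • mon E L • y := by
  induction L with
  | nil => simp [mon_nil, deg, hy]
  | cons p L ih =>
    have h1 : P * E p.1 = E p.1 * P + (-1 : ℂ) • E p.1 := by
      rw [hw.pe, neg_smul, one_smul, sub_eq_add_neg]
    have hdeg : deg (p :: L) = p.2 + deg L := by simp [deg]
    rw [mon_cons, mul_smul, ← mul_smul P, h_mul_dp h1, add_smul, mul_smul, ih,
      smul_comm (dp (E p.1) _), smul_assoc, ← add_smul, hdeg]
    congr 1
    push_cast
    ring

theorem P_evL {a b : Int} {t : T} (ht : T.Hom a b t) :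
    P • T.evL F t • v = ((a : ℂ) + b) • T.evL F t • v := by
  have h1 : ∀ j, P * F j = F j * P + (1 : ℂ) • F j := by intro j; rw [hw.pf, one_smul]
  rw [← mul_smul, T.comm_evL (c := fun _ => 1) h1 ht, add_smul, mul_smul, hw.p_v, smul_zero,
    zero_add, smul_assoc]
  simp

theorem evR_P {a b : Int} {t : T} (ht : T.Hom a b t) (y : V) :
    φ (T.evR E t • P • y) = ((a : ℂ) + b) * φ (T.evR E t • y) := by
  have h1 : ∀ j, P * E j = E j * P + (-1 : ℂ) • E j := by
    intro j; rw [hw.pe, neg_smul, one_smul, sub_eq_add_neg]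
  have h2 := T.comm_evR (c := fun _ => -1) h1 ht
  have h3 : T.evR E t * P = P * T.evR E t + ((a : ℂ) + b) • T.evR E t := by
    rw [h2]
    have : ((a : ℂ) * (fun _ : Fin 2 => (-1 : ℂ)) 0 + (b : ℂ) * (fun _ : Fin 2 => (-1 : ℂ)) 1)
        = -((a : ℂ) + b) := by ring
    rw [this, neg_smul]; simp
  rw [← mul_smul, h3, add_smul, map_add, mul_smul, hw.phi_p, zero_add, smul_assoc,
    LinearMap.map_smul φ, smul_eq_mul]

theorem evL_mem (t : T) : T.evL F t ∈ UZ' E F := by
  have hX : ∀ i, F i ∈ UZ' E F := by
    intro i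
    apply Subring.subset_closure
    exact ⟨i, 1, Or.inr (by rw [dp_natCast]; simp)⟩
  induction t with
  | z => exact zero_mem _
  | n c l r ihl ihr =>
    exact add_mem (add_mem (intCast_mem _ c) (mul_mem (hX 0) ihl)) (mul_mem (hX 1) ihr)

theorem evR_mem (t : T) : T.evR E t ∈ UZ' E F := by
  have hX : ∀ i, E i ∈ UZ' E F := by
    intro i
    apply Subring.subset_closure
    exact ⟨i, 1, Or.inl (by rw [dp_natCast]; simp)⟩
  induction t with
  | z => exact zero_mem _
  | n c l r ihl ihr =>
    exact add_mem (add_mem (intCast_mem _ c) (mul_mem ihl (hX 0))) (mul_mem ihr (hX 1))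

theorem mon_E_mem (L : List (Fin 2 × ℕ)) : mon E L ∈ UZ' E F := by
  induction L with
  | nil => exact one_mem _
  | cons p L ih =>
    rw [mon_cons]
    exact mul_mem (Subring.subset_closure ⟨p.1, p.2, Or.inl rfl⟩) ih

theorem mon_F_mem (L : List (Fin 2 × ℕ)) : mon F L ∈ UZ' E F := by
  induction L with
  | nil => exact one_mem _
  | cons p L ih =>
    rw [mon_cons]
    exact mul_mem (Subring.subset_closure ⟨p.1, p.2, Or.inr rfl⟩) ih

omit hw in
/-- arithmetic step: an integer whose multiple by a number prime to 23 is divisible by 23 -/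
theorem div_step (N : ℕ) (h9 : ∀ q : ℕ, q.Prime → q ∣ N → q ≤ 9) (m m' : ℤ)
    (h : (N : ℤ) * m = 23 * m') : ∃ m'' : ℤ, m = 23 * m'' := by
  have hp : Nat.Prime 23 := by norm_num
  have h1 : (23 : ℤ) ∣ (N : ℤ) * m := ⟨m', h⟩
  have hpz : Prime (23 : ℤ) := Nat.prime_iff_prime_int.1 hp
  rcases hpz.dvd_or_dvd h1 with h2 | h2
  · have h3 : (23 : ℕ) ∣ N := by exact_mod_cast h2
    have := h9 23 hp h3
    omega
  · exact h2

/-- the special vector -/
theorem K2 (h0 : lam 0 = 3) (h1 : lam 1 = 0) (u : U) (hu : u ∈ UZ' E F) :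
    ∃ m : ℤ, φ (u • T.evL F T.cert • v) = 23 * (m : ℂ) := by
  set x := T.evL F T.cert • v with hx
  have hxw : IsWt H x := ⟨_, fun i => T.H_evL hw T.hom_cert i⟩
  have hP : P • x = (9 : ℂ) • x := by
    have := P_evL hw T.hom_cert
    rw [hx, this]; congr 1; norm_num
  have h2 := mem_NN_of_mem hw x hxw u hu
  unfold NN at h2
  generalize u • x = w at h2 ⊢
  induction h2 using AddSubgroup.closure_induction with
  | mem y hy =>
    obtain ⟨L, L', rfl⟩ := hy
    rcases phi_monF hw L (mon E L' • x) with h | h
    · exact ⟨0, by rw [h]; simp⟩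
    rw [h]
    by_cases hd : deg L' = 9
    · -- the main case
      obtain ⟨N, J, hJ1, hJ2, hJ3⟩ := expand E L'
      obtain ⟨m', hm'⟩ := T.chk_evL hw h0 h1 9 T.hom_cert T.chk_cert J.reverse (by
        rw [List.length_reverse, hJ1, hd])
      rw [List.reverse_reverse, ← hJ2, smul_assoc, LinearMap.map_smul φ, smul_eq_mul] at hm'
      obtain ⟨m, hm⟩ := phi_int hw (mon E L' * T.evL F T.cert)
        (mul_mem (mon_E_mem hw L') (evL_mem hw _))
      rw [mul_smul, ← hx] at hm
      rw [← hx, hm] at hm'
      have hm'' : (N : ℤ) * m = 23 * m' := by exact_mod_cast hm'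
      obtain ⟨k, hk⟩ := div_step N (fun q hq hqn => by
        have := hJ3 q hq hqn; omega) m m' hm''
      exact ⟨k, by rw [hm, hk]; push_cast; rfl⟩
    · -- wrong degree
      refine ⟨0, ?_⟩
      have h3 := P_monE hw hP L'
      have h4 := hw.phi_p (mon E L' • x)
      rw [h3, LinearMap.map_smul φ, smul_eq_mul] at h4
      rcases mul_eq_zero.1 h4 with h5 | h5
      · exfalso
        apply hd
        have : (deg L' : ℂ) = 9 := by linear_combination -h5
        exact_mod_cast this
      · rw [h5]; simp
  | zero => exact ⟨0, by simp⟩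
  | add x y _ _ hx hy =>
    obtain ⟨m, hm⟩ := hx
    obtain ⟨n, hn⟩ := hy
    exact ⟨m + n, by rw [map_add, hm, hn]; push_cast; ring⟩
  | neg x _ hx =>
    obtain ⟨m, hm⟩ := hx
    exact ⟨-m, by rw [map_neg, hm]; push_cast; ring⟩

theorem K3 (h0 : lam 0 = 3) (h1 : lam 1 = 0) (u : U) (hu : u ∈ UZ' E F) :
    ∃ m : ℤ, φ (T.evR E T.cert • u • v) = 23 * (m : ℂ) := by
  have h2 := mem_NN_of_mem hw v (isWt_v hw) u hu
  unfold NN at h2
  generalize u • v = w at h2 ⊢
  induction h2 using AddSubgroup.closure_induction with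
  | mem y hy =>
    obtain ⟨L, L', rfl⟩ := hy
    rcases monE_v hw L' with h | h
    · exact ⟨0, by rw [h]; simp⟩
    rw [h]
    by_cases hd : deg L = 9
    · obtain ⟨N, J, hJ1, hJ2, hJ3⟩ := expand F L
      obtain ⟨m', hm'⟩ := T.chk_evR hw h0 h1 9 T.hom_cert T.chk_cert J (by rw [hJ1, hd])
      rw [← hJ2, smul_assoc, smul_comm (T.evR E T.cert), LinearMap.map_smul φ,
        smul_eq_mul] at hm'
      obtain ⟨m, hm⟩ := phi_int hw (T.evR E T.cert * mon F L)
        (mul_mem (evR_mem hw _) (mon_F_mem hw L))
      rw [mul_smul] at hm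
      rw [hm] at hm'
      have hm'' : (N : ℤ) * m = 23 * m' := by exact_mod_cast hm'
      obtain ⟨k, hk⟩ := div_step N (fun q hq hqn => by
        have := hJ3 q hq hqn; omega) m m' hm''
      exact ⟨k, by rw [hm, hk]; push_cast; rfl⟩
    · refine ⟨0, ?_⟩
      have h3 := P_monF hw (c := 0) (by rw [hw.p_v, zero_smul]) L
      have h4 := evR_P hw T.hom_cert (mon F L • v)
      rw [h3, smul_comm (T.evR E T.cert), LinearMap.map_smul φ, smul_eq_mul] at h4
      have h5 : ((deg L : ℂ) - 9) * φ (T.evR E T.cert • mon F L • v) = 0 := by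
        push_cast at h4
        linear_combination h4
      rcases mul_eq_zero.1 h5 with h6 | h6
      · exfalso
        apply hd
        have : (deg L : ℂ) = 9 := by linear_combination h6
        exact_mod_cast this
      · rw [h6]; simp
  | zero => exact ⟨0, by simp⟩
  | add x y _ _ hx hy =>
    obtain ⟨m, hm⟩ := hx
    obtain ⟨n, hn⟩ := hy
    exact ⟨m + n, by rw [smul_add, map_add, hm, hn]; push_cast; ring⟩
  | neg x _ hx =>
    obtain ⟨m, hm⟩ := hx
    exact ⟨-m, by rw [smul_neg, map_neg, hm]; push_cast; ring⟩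

theorem K4 (h0 : lam 0 = 3) (h1 : lam 1 = 0) :
    φ (T.evR E T.cert • T.evL F T.cert • v) = 66584448 := by
  rw [T.pair_eq hw h0 h1 T.cert T.cert T.hom_cert, T.pair_cert]
  norm_num

end
end Pool.Agent.Lib.H78
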