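import Mathlib

/-!
# Weyl modules of the affine Kac-Moody algebra of type `A_1^(1)` over a field

This file holds the definitions which the statement of
`Pool.Agent.Results.MP_c6e3af_al.WeylReducible.result` uses, in the order of the problem file:
the algebra, its enveloping algebra `U`, the form `UZ` generated by the divided powers, the
irreducible highest weight modules, the lattice `VZ`, the Weyl module `Weyl`, and its submodules
over the hyperalgebra.
-/

open scoped TensorProduct

namespace Pool.Agent.Lib.H78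
noncomputable section

/-- The generalized Cartan matrix of type `A_1^(1)`. -/
def cartan (i j : Fin 2) : ℤ := if i = j then 2 else -2

/-- Names of the generators of the affine Kac-Moody algebra: the Chevalley generators
`e_i, f_i, h_i` (`i = 0, 1`) and the scaling element `d`. -/
inductive Gen
  | e (i : Fin 2)
  | f (i : Fin 2)
  | h (i : Fin 2)
  | d

/-- The free Lie algebra on the generators. -/
abbrev FreeLie : Type := FreeLieAlgebra ℂ Gen

/-- A generator, as an element of the free Lie algebra. -/
abbrev fr (g : Gen) : FreeLie := FreeLieAlgebra.of ℂ g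

/-- The defining relations of the affine Kac-Moody algebra of type `A_1^(1)`:
`[h_i, h_j] = 0`, `[d, h_i] = 0`, `[e_i, f_j] = δ_ij h_i`, `[h_i, e_j] = a_ij e_j`,
`[h_i, f_j] = - a_ij f_j`, `[d, e_i] = δ_i0 e_i`, `[d, f_i] = - δ_i0 f_i`, and the Serre relations
`(ad e_i)^3 e_j = 0 = (ad f_i)^3 f_j` for `i ≠ j`.  Here `IsRelation x` says that `x = 0` is one of
these relations. -/
inductive IsRelation : FreeLie → Prop
  | hh (i j : Fin 2) : IsRelation ⁅fr (.h i), fr (.h j)⁆
  | dh (i : Fin 2) : IsRelation ⁅fr .d, fr (.h i)⁆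
  | ef_same (i : Fin 2) : IsRelation (⁅fr (.e i), fr (.f i)⁆ - fr (.h i))
  | ef_diff (i j : Fin 2) : i ≠ j → IsRelation ⁅fr (.e i), fr (.f j)⁆
  | he (i j : Fin 2) : IsRelation (⁅fr (.h i), fr (.e j)⁆ - cartan i j • fr (.e j))
  | hf (i j : Fin 2) : IsRelation (⁅fr (.h i), fr (.f j)⁆ + cartan i j • fr (.f j))
  | de_zero : IsRelation (⁅fr .d, fr (.e 0)⁆ - fr (.e 0))
  | df_zero : IsRelation (⁅fr .d, fr (.f 0)⁆ + fr (.f 0))
  | de_one : IsRelation ⁅fr .d, fr (.e 1)⁆
  | df_one : IsRelation ⁅fr .d, fr (.f 1)⁆
  | serre_e (i j : Fin 2) : i ≠ j →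
      IsRelation ⁅fr (.e i), ⁅fr (.e i), ⁅fr (.e i), fr (.e j)⁆⁆⁆
  | serre_f (i j : Fin 2) : i ≠ j →
      IsRelation ⁅fr (.f i), ⁅fr (.f i), ⁅fr (.f i), fr (.f j)⁆⁆⁆

/-- The Lie ideal generated by the defining relations. -/
def relIdeal : LieIdeal ℂ FreeLie := LieSubmodule.lieSpan ℂ FreeLie {x | IsRelation x}

/-- The affine Kac-Moody algebra of type `A_1^(1)` over `ℂ`, presented by the Chevalley generators,
the scaling element, and the relations above. -/
abbrev AffineSl2 : Type := FreeLie ⧸ relIdeal

/-- The Lie ring structure of the algebra (the library's, named only for brevity). -/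
instance instLieRingAffineSl2 : LieRing AffineSl2 := inferInstance

/-- The Lie algebra structure of the algebra (the library's, named only for brevity). -/
instance instLieAlgebraAffineSl2 : LieAlgebra ℂ AffineSl2 := inferInstance

/-- Its universal enveloping algebra. -/
abbrev U : Type := UniversalEnvelopingAlgebra ℂ AffineSl2

/-- The ring structure of `U` (the library's, named only for brevity). -/
instance instRingU : Ring U := inferInstance

/-- The `ℂ`-algebra structure of `U` (the library's, named only for brevity). -/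
instance instAlgebraU : Algebra ℂ U := inferInstance

/-- The generators `e_i, f_i, h_i, d`, as elements of `U`. -/
def gen (g : Gen) : U :=
  UniversalEnvelopingAlgebra.ι ℂ (LieSubmodule.Quotient.mk (fr g) : AffineSl2)

/-- The divided power `x ^ (k) = x ^ k / k!`. -/
def divPow (x : U) (k : ℕ) : U := ((k.factorial : ℂ)⁻¹) • x ^ k

/-- The Kostant-Garland form: the subring of `U` generated by the divided powers `e_i ^ (k)` and
`f_i ^ (k)`. -/
def UZ : Subring U :=
  Subring.closure {x | ∃ (i : Fin 2) (k : ℕ), x = divPow (gen (.e i)) k ∨ x = divPow (gen (.f i)) k}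

/-- `M` is the irreducible highest weight module `L_ℂ(λ)` with highest weight
`λ = (l - n) ω_0 + n ω_1` and `v` is a highest weight vector of it: `M` is a simple `U`-module,
`v ≠ 0`, `e_i v = 0`, `h_0 v = (l - n) v`, `h_1 v = n v` and `d v = 0`.  (Such a pair `(M, v)` is
unique up to isomorphism.) -/
structure IsIrrHighestWeight (l n : ℕ) (M : Type*) [AddCommGroup M] [Module U M] (v : M) :
    Prop where
  simple : IsSimpleModule U M
  ne_zero : v ≠ 0
  e_smul : ∀ i, gen (.e i) • v = 0
  h_zero_smul : gen (.h 0) • v = algebraMap ℂ U ((l : ℂ) - n) • v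
  h_one_smul : gen (.h 1) • v = algebraMap ℂ U n • v
  d_smul : gen .d • v = 0

/-- The ring structure of `U_ℤ` (the library's, named only for brevity). -/
instance instRingUZ : Ring UZ := inferInstance

/-- A `U`-module is a `U_ℤ`-module (the library's structure, named only for brevity). -/
instance instModuleUZ (M : Type*) [AddCommGroup M] [Module U M] : Module UZ M := inferInstance

section Reduction

variable (F : Type*) [Field F] (N : Type*) [AddCommGroup N] [Module UZ N]

/-- For a `U_ℤ`-module `N`, the action of `1 ⊗ u`, `u ∈ U_ℤ`, on `F ⊗_ℤ N`: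
`a ⊗ y ↦ a ⊗ (u y)`. -/
def act (u : UZ) : F ⊗[ℤ] N →ₗ[F] F ⊗[ℤ] N :=
  LinearMap.baseChange F (DistribSMul.toAddMonoidHom N u).toIntLinearMap

/-- `W` is a submodule of `F ⊗_ℤ N` over the hyperalgebra `U_F = F ⊗_ℤ U_ℤ`: an `F`-subspace
stable under the elements `1 ⊗ u`, `u ∈ U_ℤ` (these span `U_F` over `F`). -/
def IsHyperSubmodule (W : Submodule F (F ⊗[ℤ] N)) : Prop :=
  ∀ u : UZ, ∀ w ∈ W, act F N u w ∈ W

/-- The `U_F`-module `F ⊗_ℤ N` has a nonzero proper `U_F`-submodule. -/
def ReductionReducible : Prop :=
  ∃ W : Submodule F (F ⊗[ℤ] N), IsHyperSubmodule F N W ∧ W ≠ ⊥ ∧ W ≠ ⊤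

end Reduction

/-- The lattice `V_ℤ(λ) = U_ℤ v`. -/
def VZ (M : Type*) [AddCommGroup M] [Module U M] (v : M) : Submodule UZ M := Submodule.span UZ {v}

/-- The Weyl module `V(λ) = F ⊗_ℤ V_ℤ(λ)` over the field `F` has a nonzero proper `U_F`-submodule,
that is, it is reducible. -/
def WeylReducible (F : Type*) [Field F] (M : Type*) [AddCommGroup M] [Module U M] (v : M) : Prop :=
  ReductionReducible F (VZ M v)

end
end Pool.Agent.Lib.H78
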