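import Mathlib

namespace Pool.Agent.Lib.H78
noncomputable section

/-! ## Integer binomial coefficients -/

theorem choose_mul_succ (a : ℤ) (k : ℕ) :
    ((k : ℤ) + 1) * Ring.choose a (k + 1) = (a - k) * Ring.choose a k := by
  have h1 := Ring.descPochhammer_eq_factorial_smul_choose a (k + 1)
  have h2 := Ring.descPochhammer_eq_factorial_smul_choose a k
  rw [descPochhammer_succ_right, Polynomial.smeval_mul, h2] at h1
  have h3 : ((Polynomial.X : Polynomial ℤ) - (k : Polynomial ℤ)).smeval a = a - k := by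
    rw [Polynomial.smeval_sub, Polynomial.smeval_X, Polynomial.smeval_natCast]
    simp
  rw [h3] at h1
  simp only [nsmul_eq_mul, Nat.factorial_succ, Nat.cast_mul, Nat.cast_add, Nat.cast_one] at h1
  have h4 : ((k.factorial : ℕ) : ℤ) ≠ 0 := by exact_mod_cast Nat.factorial_ne_zero k
  apply mul_left_cancel₀ h4
  linear_combination -h1

variable {U : Type*} [Ring U] [Algebra ℂ U]

/-- divided powers indexed by integers (zero for negative index) -/
def dp (x : U) (j : ℤ) : U := if j < 0 then 0 else ((j.toNat.factorial : ℂ)⁻¹) • x ^ j.toNat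

theorem dp_neg (x : U) {j : ℤ} (h : j < 0) : dp x j = 0 := by simp [dp, h]

theorem dp_natCast (x : U) (k : ℕ) : dp x (k : ℤ) = ((k.factorial : ℂ)⁻¹) • x ^ k := by
  simp [dp]

theorem dp_zero (x : U) : dp x 0 = 1 := by simp [dp]

theorem mul_dp (x : U) (j : ℤ) : x * dp x j = ((j : ℂ) + 1) • dp x (j + 1) := by
  rcases lt_trichotomy j (-1) with h | h | h
  · rw [dp_neg x (by omega), dp_neg x (by omega)]; simp
  · subst h; rw [dp_neg x (by omega)]; simp
  · obtain ⟨k, rfl⟩ : ∃ k : ℕ, j = k := ⟨j.toNat, by omega⟩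
    rw [dp_natCast, show ((k : ℤ) + 1) = ((k + 1 : ℕ) : ℤ) by push_cast; rfl, dp_natCast,
      mul_smul_comm, ← pow_succ', smul_smul, Nat.factorial_succ]
    congr 1
    have : (k.factorial : ℂ) ≠ 0 := by exact_mod_cast Nat.factorial_ne_zero k
    have h2 : ((k : ℂ) + 1) ≠ 0 := by exact_mod_cast Nat.succ_ne_zero k
    push_cast
    field_simp

theorem dp_mul (x : U) (j : ℤ) : dp x j * x = ((j : ℂ) + 1) • dp x (j + 1) := by
  rw [← mul_dp]
  unfold dp
  split_ifs
  · simp
  · rw [smul_mul_assoc, mul_smul_comm, ← pow_succ, ← pow_succ']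

/-- commutation of `e` with a divided power of `f`. -/
theorem e_mul_dp_f {e f h : U} (hef : e * f = f * e + h) (hhf : h * f = f * h - (2 : ℂ) • f)
    (j : ℤ) :
    e * dp f j = dp f j * e + dp f (j - 1) * (h - ((j : ℂ) - 1) • (1 : U)) := by
  rcases lt_or_ge j 0 with hj | hj
  · rw [dp_neg f hj, dp_neg f (by omega)]; simp
  obtain ⟨n, rfl⟩ : ∃ n : ℕ, j = n := ⟨j.toNat, by omega⟩
  clear hj
  induction n with
  | zero => simp [dp_zero, dp_neg f (show (-1 : ℤ) < 0 by omega)]
  | succ n ih =>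
    have hn : ((n : ℂ) + 1) ≠ 0 := by exact_mod_cast Nat.succ_ne_zero n
    have key : ((n : ℂ) + 1) • (e * dp f ((n + 1 : ℕ) : ℤ)) = ((n : ℂ) + 1) •
        (dp f ((n + 1 : ℕ) : ℤ) * e +
          dp f (((n + 1 : ℕ) : ℤ) - 1) * (h - ((((n + 1 : ℕ) : ℤ) : ℂ) - 1) • (1 : U))) := by
      have e1 : ((n : ℂ) + 1) • (e * dp f ((n + 1 : ℕ) : ℤ)) = e * (dp f (n : ℤ) * f) := by
        rw [dp_mul, mul_smul_comm]; push_cast; rfl
      have e2 : ((n : ℂ) + 1) • (dp f ((n + 1 : ℕ) : ℤ) * e) = dp f (n : ℤ) * f * e := by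
        rw [dp_mul, smul_mul_assoc]; push_cast; rfl
      rw [smul_add, e1, e2, ← mul_assoc, ih]
      have e3 : dp f ((n : ℤ) - 1) * f = (n : ℂ) • dp f (n : ℤ) := by
        rw [dp_mul]; push_cast; ring_nf
      have e4 : (h - (((n : ℤ) : ℂ) - 1) • (1 : U)) * f
          = f * (h - ((n : ℂ) + 1) • (1 : U)) := by
        rw [sub_mul, hhf, mul_sub, smul_mul_assoc, one_mul, mul_smul_comm, mul_one]
        push_cast
        module
      rw [add_mul, mul_assoc (dp f ((n : ℤ) - 1)), e4, ← mul_assoc (dp f ((n : ℤ) - 1)), e3,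
        mul_assoc, hef, mul_add, ← mul_assoc]
      have e5 : ((n + 1 : ℕ) : ℤ) - 1 = n := by push_cast; ring
      rw [e5]
      have e6 : ((((n + 1 : ℕ) : ℤ) : ℂ) - 1) = n := by push_cast; ring
      rw [e6]
      simp only [mul_sub, mul_smul_comm, mul_one, smul_mul_assoc, smul_sub, smul_smul]
      module
    exact smul_right_injective U hn key

/-- weight shift under divided powers -/
theorem h_mul_dp {x h : U} {c : ℂ} (hx : h * x = x * h + c • x) (j : ℤ) :
    h * dp x j = dp x j * h + (c * j) • dp x j := by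
  rcases lt_or_ge j 0 with hj | hj
  · rw [dp_neg x hj]; simp
  obtain ⟨n, rfl⟩ : ∃ n : ℕ, j = n := ⟨j.toNat, by omega⟩
  clear hj
  rw [dp_natCast]
  have key : h * x ^ n = x ^ n * h + (c * n) • x ^ n := by
    induction n with
    | zero => simp
    | succ n ih =>
      rw [pow_succ, ← mul_assoc, ih, add_mul, mul_assoc, hx, mul_add, smul_mul_assoc,
        mul_smul_comm, ← mul_assoc]
      push_cast
      module
  rw [mul_smul_comm, key, smul_add, smul_mul_assoc, smul_comm]
  simp

/-- commuting elements -/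
theorem comm_dp {x y : U} (h : x * y = y * x) (j k : ℤ) : dp x j * dp y k = dp y k * dp x j := by
  have h1 : Commute x y := h
  unfold dp
  split_ifs
  · simp
  · simp
  · simp
  · rw [smul_mul_smul_comm, smul_mul_smul_comm, (h1.pow_pow _ _).eq, mul_comm]

variable {V : Type*} [AddCommGroup V] [Module ℂ V] [Module U V] [IsScalarTower ℂ U V]

/-- The straightening formula for divided powers on a weight vector. -/
theorem dp_e_dp_f {e f h : U} (hef : e * f = f * e + h) (hhe : h * e = e * h + (2 : ℂ) • e)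
    (hhf : h * f = f * h - (2 : ℂ) • f) (y : V) (c : ℤ) (hy : h • y = (c : ℂ) • y)
    (n : ℤ) (m : ℕ) :
    dp e (m : ℤ) • dp f n • y = ∑ k ∈ Finset.range (m + 1),
      ((Ring.choose (c + m - n) k : ℤ) : ℂ) • dp f (n - k) • dp e ((m : ℤ) - k) • y := by
  induction m with
  | zero => simp [dp_zero]
  | succ m ih =>
    have hm : ((m : ℂ) + 1) ≠ 0 := by exact_mod_cast Nat.succ_ne_zero m
    have key : ((m : ℂ) + 1) • (dp e ((m + 1 : ℕ) : ℤ) • dp f n • y) = ((m : ℂ) + 1) •
        (∑ k ∈ Finset.range (m + 1 + 1),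
          ((Ring.choose (c + ((m + 1 : ℕ) : ℤ) - n) k : ℤ) : ℂ) • dp f (n - k) •
            dp e (((m + 1 : ℕ) : ℤ) - k) • y) := by
      have e1 : ((m : ℂ) + 1) • (dp e ((m + 1 : ℕ) : ℤ) • dp f n • y)
          = e • (dp e (m : ℤ) • dp f n • y) := by
        rw [← mul_smul e, mul_dp, smul_assoc]; push_cast; rfl
      rw [e1, ih, Finset.smul_sum]
      set a : ℤ := c + m - n with ha
      have ha' : c + ((m + 1 : ℕ) : ℤ) - n = a + 1 := by rw [ha]; push_cast; ring
      rw [ha']
      -- termwise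
      have term : ∀ k ∈ Finset.range (m + 1),
          e • (((Ring.choose a k : ℤ) : ℂ) • dp f (n - k) • dp e ((m : ℤ) - k) • y)
          = (((Ring.choose a k : ℤ) : ℂ) * ((m : ℂ) - k + 1)) •
              dp f (n - k) • dp e (((m + 1 : ℕ) : ℤ) - k) • y
            + (((Ring.choose a k : ℤ) : ℂ) * ((a : ℂ) + m + 1 - k)) •
              dp f (n - ((k + 1 : ℕ) : ℤ)) • dp e (((m + 1 : ℕ) : ℤ) - ((k + 1 : ℕ) : ℤ)) • y := by
        intro k hk
        rw [smul_comm e]
        rw [← mul_smul e, e_mul_dp_f hef hhf, add_smul, mul_smul, mul_smul]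
        have t1 : e • dp e ((m : ℤ) - k) • y
            = ((m : ℂ) - k + 1) • dp e (((m + 1 : ℕ) : ℤ) - k) • y := by
          rw [← mul_smul e, mul_dp, smul_assoc]
          have : (m : ℤ) - k + 1 = ((m + 1 : ℕ) : ℤ) - k := by push_cast; ring
          rw [this]; push_cast; rfl
        have t2 : (h - (((n - k : ℤ) : ℂ) - 1) • (1 : U)) • dp e ((m : ℤ) - k) • y
            = ((a : ℂ) + m + 1 - k) • dp e ((m : ℤ) - k) • y := by
          rw [sub_smul, ← mul_smul h, h_mul_dp hhe, add_smul, mul_smul, hy, smul_comm (dp e _),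
            smul_assoc, smul_assoc, one_smul]
          rw [ha]; push_cast
          generalize dp e ((m : ℤ) - k) • y = z
          module
        rw [t1, t2, smul_comm (dp f (n - ↑k)), smul_comm (dp f (n - ↑k - 1)), smul_add,
          smul_smul ((Ring.choose a k : ℤ) : ℂ), smul_smul ((Ring.choose a k : ℤ) : ℂ)]
        have t3 : n - (k : ℤ) - 1 = n - ((k + 1 : ℕ) : ℤ) := by push_cast; ring
        have t4 : (m : ℤ) - k = ((m + 1 : ℕ) : ℤ) - ((k + 1 : ℕ) : ℤ) := by push_cast; ring
        rw [t3, t4]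
      rw [Finset.sum_congr rfl term, Finset.sum_add_distrib]
      -- extend first sum by a zero term, and shift the second
      set B : ℕ → V := fun k => dp f (n - (k : ℤ)) • dp e (((m + 1 : ℕ) : ℤ) - (k : ℤ)) • y with hB
      have s1 : ∑ k ∈ Finset.range (m + 1), (((Ring.choose a k : ℤ) : ℂ) * ((m : ℂ) - k + 1)) • B k
          = ∑ k ∈ Finset.range (m + 1 + 1), (((Ring.choose a k : ℤ) : ℂ) * ((m : ℂ) - k + 1)) • B k := by
        rw [Finset.sum_range_succ _ (m + 1)]
        push_cast
        simp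
      have s2 : ∑ k ∈ Finset.range (m + 1), (((Ring.choose a k : ℤ) : ℂ) * ((a : ℂ) + m + 1 - k)) •
            B (k + 1)
          = ∑ k ∈ Finset.range (m + 1 + 1), ((m + 1 : ℂ) * ((Ring.choose (a + 1) k : ℤ) : ℂ)
              - ((Ring.choose a k : ℤ) : ℂ) * ((m : ℂ) - k + 1)) • B k := by
        rw [Finset.sum_range_succ' _ (m + 1)]
        have z0 : ((m + 1 : ℂ) * ((Ring.choose (a + 1) 0 : ℤ) : ℂ)
              - ((Ring.choose a 0 : ℤ) : ℂ) * ((m : ℂ) - (0 : ℕ) + 1)) • B 0 = 0 := by
          simp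
        rw [z0, add_zero]
        apply Finset.sum_congr rfl
        intro k _
        congr 1
        have r1 := choose_mul_succ a k
        have r2 := Ring.choose_succ_succ a k
        have r1' : ((k : ℂ) + 1) * ((Ring.choose a (k + 1) : ℤ) : ℂ)
            = ((a : ℂ) - k) * ((Ring.choose a k : ℤ) : ℂ) := by exact_mod_cast r1
        have r2' : ((Ring.choose (a + 1) (k + 1) : ℤ) : ℂ)
            = ((Ring.choose a k : ℤ) : ℂ) + ((Ring.choose a (k + 1) : ℤ) : ℂ) := by exact_mod_cast r2
        rw [r2']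
        push_cast
        linear_combination (-1 : ℂ) * r1'
      have s1' := s1
      have s2' := s2
      simp only [hB] at s1' s2'
      rw [s1', s2', ← Finset.sum_add_distrib, Finset.smul_sum]
      apply Finset.sum_congr rfl
      intro k _
      rw [← add_smul, smul_smul ((m : ℂ) + 1)]
      congr 1
      ring
    exact smul_right_injective V hm key

end
end Pool.Agent.Lib.H78
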