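import Pool.Agent.Lib.H78.DividedPowers
import Pool.Agent.Lib.H78.Defs

namespace Pool.Agent.Lib.H78
set_option linter.unusedSectionVars false
noncomputable section

theorem cartan_diag (i : Fin 2) : cartan i i = 2 := by fin_cases i <;> rfl

/-- Everything we use about a highest weight module. -/
structure HW {U : Type*} [Ring U] [Algebra ℂ U] (E F H : Fin 2 → U) (P : U)
    {V : Type*} [AddCommGroup V] [Module ℂ V] [Module U V] (v : V) (φ : V →ₗ[ℂ] ℂ)
    (lam : Fin 2 → ℤ) : Prop where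
  ef_same : ∀ i, E i * F i = F i * E i + H i
  ef_diff : ∀ i j, i ≠ j → E i * F j = F j * E i
  he : ∀ i j, H i * E j = E j * H i + ((cartan i j : ℤ) : ℂ) • E j
  hf : ∀ i j, H i * F j = F j * H i - ((cartan i j : ℤ) : ℂ) • F j
  pe : ∀ i, P * E i = E i * P - E i
  pf : ∀ i, P * F i = F i * P + F i
  e_v : ∀ i, E i • v = 0
  h_v : ∀ i, H i • v = ((lam i : ℤ) : ℂ) • v
  p_v : P • v = 0
  phi_v : φ v = 1
  phi_f : ∀ i y, φ (F i • y) = 0
  phi_h : ∀ i y, φ (H i • y) = ((lam i : ℤ) : ℂ) * φ y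
  phi_p : ∀ y, φ (P • y) = 0

variable {U : Type*} [Ring U] [Algebra ℂ U]
variable {V : Type*} [AddCommGroup V] [Module ℂ V] [Module U V] [IsScalarTower ℂ U V]

/-- monomials in divided powers -/
def mon (X : Fin 2 → U) (L : List (Fin 2 × ℕ)) : U := (L.map fun p => dp (X p.1) (p.2 : ℤ)).prod

theorem mon_nil (X : Fin 2 → U) : mon X [] = 1 := rfl

theorem mon_cons (X : Fin 2 → U) (p : Fin 2 × ℕ) (L : List (Fin 2 × ℕ)) :
    mon X (p :: L) = dp (X p.1) (p.2 : ℤ) * mon X L := by simp [mon]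

/-- The subring generated by the divided powers. -/
def UZ' (E F : Fin 2 → U) : Subring U :=
  Subring.closure {x | ∃ (i : Fin 2) (k : ℕ), x = dp (E i) (k : ℤ) ∨ x = dp (F i) (k : ℤ)}

section
variable {E F H : Fin 2 → U} {P : U} {v : V} {φ : V →ₗ[ℂ] ℂ} {lam : Fin 2 → ℤ}
variable (hw : HW E F H P v φ lam)

/-- integral weight vectors -/
def IsWt (H : Fin 2 → U) (y : V) : Prop := ∃ c : Fin 2 → ℤ, ∀ i, H i • y = ((c i : ℤ) : ℂ) • y

include hw

theorem isWt_v : IsWt H v := ⟨lam, hw.h_v⟩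

theorem isWt_dp_F {y : V} (hy : IsWt H y) (j : Fin 2) (n : ℤ) : IsWt H (dp (F j) n • y) := by
  obtain ⟨c, hc⟩ := hy
  refine ⟨fun i => c i - cartan i j * n, fun i => ?_⟩
  have h1 : H i * F j = F j * H i + (-((cartan i j : ℤ) : ℂ)) • F j := by
    rw [hw.hf, neg_smul, sub_eq_add_neg]
  rw [← mul_smul, h_mul_dp h1, add_smul, mul_smul, hc, smul_comm (dp (F j) n), smul_assoc,
    ← add_smul]
  congr 1
  push_cast
  ring

theorem isWt_dp_E {y : V} (hy : IsWt H y) (j : Fin 2) (n : ℤ) : IsWt H (dp (E j) n • y) := by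
  obtain ⟨c, hc⟩ := hy
  refine ⟨fun i => c i + cartan i j * n, fun i => ?_⟩
  rw [← mul_smul, h_mul_dp (hw.he i j), add_smul, mul_smul, hc, smul_comm (dp (E j) n), smul_assoc,
    ← add_smul]
  congr 1
  push_cast
  ring

theorem isWt_mon_F {y : V} (hy : IsWt H y) (L : List (Fin 2 × ℕ)) : IsWt H (mon F L • y) := by
  induction L with
  | nil => simpa [mon_nil] using hy
  | cons p L ih => rw [mon_cons, mul_smul]; exact isWt_dp_F hw ih _ _

theorem isWt_mon_E {y : V} (hy : IsWt H y) (L : List (Fin 2 × ℕ)) : IsWt H (mon E L • y) := by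
  induction L with
  | nil => simpa [mon_nil] using hy
  | cons p L ih => rw [mon_cons, mul_smul]; exact isWt_dp_E hw ih _ _

omit hw in
/-- auxiliary subgroup -/
def S1 (E F : Fin 2 → U) (i : Fin 2) (z : V) : AddSubgroup V :=
  AddSubgroup.closure {w | ∃ (L : List (Fin 2 × ℕ)) (m : ℕ), w = mon F L • dp (E i) (m : ℤ) • z}

omit hw [Module ℂ V] [IsScalarTower ℂ U V] in
theorem S1_dpF (i j : Fin 2) (n : ℤ) (z w : V) (hw' : w ∈ S1 E F i z) :
    dp (F j) n • w ∈ S1 E F i z := by
  rcases lt_or_ge n 0 with hn | hn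
  · rw [dp_neg _ hn, zero_smul]; exact zero_mem _
  obtain ⟨n, rfl⟩ : ∃ k : ℕ, n = k := ⟨n.toNat, by omega⟩
  unfold S1 at hw' ⊢
  induction hw' using AddSubgroup.closure_induction with
  | mem x hx =>
    obtain ⟨L, m, rfl⟩ := hx
    apply AddSubgroup.subset_closure
    exact ⟨(j, n) :: L, m, by rw [mon_cons, mul_smul]⟩
  | zero => rw [smul_zero]; exact zero_mem _
  | add x y _ _ hx hy => rw [smul_add]; exact add_mem hx hy
  | neg x _ hx => rw [smul_neg]; exact neg_mem hx

theorem dpE_monF_mem (i : Fin 2) (z : V) (hz : IsWt H z) (L : List (Fin 2 × ℕ)) (m : ℕ) :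
    dp (E i) (m : ℤ) • mon F L • z ∈ S1 E F i z := by
  induction L generalizing m with
  | nil =>
    apply AddSubgroup.subset_closure
    exact ⟨[], m, by simp [mon_nil]⟩
  | cons p L ih =>
    obtain ⟨j, n⟩ := p
    rw [mon_cons, mul_smul]
    by_cases hij : i = j
    · subst hij
      obtain ⟨c, hc⟩ := isWt_mon_F hw hz L
      have hhe : H i * E i = E i * H i + (2 : ℂ) • E i := by
        have := hw.he i i; rw [cartan_diag] at this; simpa using this
      have hhf : H i * F i = F i * H i - (2 : ℂ) • F i := by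
        have := hw.hf i i; rw [cartan_diag] at this; simpa using this
      rw [dp_e_dp_f (hw.ef_same i) hhe hhf _ (c i) (hc i) (n : ℤ) m]
      apply sum_mem
      intro k hk
      rw [Int.cast_smul_eq_zsmul]
      apply AddSubgroup.zsmul_mem
      apply S1_dpF
      have : (m : ℤ) - k = ((m - k : ℕ) : ℤ) := by
        have := Finset.mem_range.1 hk
        omega
      rw [this]
      exact ih _
    · rw [← mul_smul, comm_dp (hw.ef_diff i j hij), mul_smul]
      exact S1_dpF _ _ _ _ _ (ih m)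

omit hw in
/-- the subgroup spanned by `F`-monomials applied to `E`-monomials applied to `y` -/
def NN (E F : Fin 2 → U) (y : V) : AddSubgroup V :=
  AddSubgroup.closure {w | ∃ (L L' : List (Fin 2 × ℕ)), w = mon F L • mon E L' • y}

theorem NN_stable (y : V) (hy : IsWt H y) (u : U) (hu : u ∈ UZ' E F) (w : V)
    (hw' : w ∈ NN E F y) : u • w ∈ NN E F y := by
  unfold UZ' at hu
  induction hu using Subring.closure_induction generalizing w with
  | mem x hx =>
    obtain ⟨i, k, rfl | rfl⟩ := hx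
    · unfold NN at hw'
      induction hw' using AddSubgroup.closure_induction with
      | mem x hx =>
        obtain ⟨L, L', rfl⟩ := hx
        have h1 := dpE_monF_mem hw i (mon E L' • y) (isWt_mon_E hw hy L') L k
        refine (?_ : S1 E F i (mon E L' • y) ≤ NN E F y) h1
        unfold S1
        rw [AddSubgroup.closure_le]
        rintro _ ⟨L'', m, rfl⟩
        apply AddSubgroup.subset_closure
        exact ⟨L'', (i, m) :: L', by rw [mon_cons, mul_smul]⟩
      | zero => rw [smul_zero]; exact zero_mem _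
      | add x y _ _ hx hy => rw [smul_add]; exact add_mem hx hy
      | neg x _ hx => rw [smul_neg]; exact neg_mem hx
    · unfold NN at hw'
      induction hw' using AddSubgroup.closure_induction with
      | mem x hx =>
        obtain ⟨L, L', rfl⟩ := hx
        apply AddSubgroup.subset_closure
        exact ⟨(i, k) :: L, L', by rw [mon_cons, mul_smul]⟩
      | zero => rw [smul_zero]; exact zero_mem _
      | add x y _ _ hx hy => rw [smul_add]; exact add_mem hx hy
      | neg x _ hx => rw [smul_neg]; exact neg_mem hx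
  | zero => rw [zero_smul]; exact zero_mem _
  | one => rwa [one_smul]
  | add a b _ _ ha hb => rw [add_smul]; exact add_mem (ha w hw') (hb w hw')
  | neg a _ ha => rw [neg_smul]; exact neg_mem (ha w hw')
  | mul a b _ _ ha hb => rw [mul_smul]; exact ha _ (hb _ hw')

theorem mem_NN_of_mem (y : V) (hy : IsWt H y) (u : U) (hu : u ∈ UZ' E F) : u • y ∈ NN E F y := by
  apply NN_stable hw y hy u hu
  apply AddSubgroup.subset_closure
  exact ⟨[], [], by simp [mon_nil]⟩

theorem phi_dpF (i : Fin 2) (k : ℕ) (y : V) :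
    φ (dp (F i) (k : ℤ) • y) = if k = 0 then φ y else 0 := by
  split_ifs with h
  · subst h; simp [dp_zero]
  · obtain ⟨k, rfl⟩ := Nat.exists_eq_succ_of_ne_zero h
    have h1 : ((k : ℂ) + 1) ≠ 0 := by exact_mod_cast Nat.succ_ne_zero k
    have h2 := mul_dp (F i) (k : ℤ)
    have h3 : dp (F i) ((k.succ : ℕ) : ℤ) = ((k : ℂ) + 1)⁻¹ • (F i * dp (F i) (k : ℤ)) := by
      rw [h2, smul_smul]; push_cast; rw [inv_mul_cancel₀ h1, one_smul]
    rw [h3, smul_assoc, map_smul, mul_smul, hw.phi_f, smul_zero]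

theorem dpE_v (i : Fin 2) (k : ℕ) : dp (E i) (k : ℤ) • v = if k = 0 then v else 0 := by
  split_ifs with h
  · subst h; simp [dp_zero]
  · obtain ⟨k, rfl⟩ := Nat.exists_eq_succ_of_ne_zero h
    have h1 : ((k : ℂ) + 1) ≠ 0 := by exact_mod_cast Nat.succ_ne_zero k
    have h2 := dp_mul (E i) (k : ℤ)
    have h3 : dp (E i) ((k.succ : ℕ) : ℤ) = ((k : ℂ) + 1)⁻¹ • (dp (E i) (k : ℤ) * E i) := by
      rw [h2, smul_smul]; push_cast; rw [inv_mul_cancel₀ h1, one_smul]
    rw [h3, smul_assoc, mul_smul, hw.e_v, smul_zero, smul_zero]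

theorem phi_monF (L : List (Fin 2 × ℕ)) (y : V) : φ (mon F L • y) = 0 ∨ φ (mon F L • y) = φ y := by
  induction L with
  | nil => right; simp [mon_nil]
  | cons p L ih =>
    rw [mon_cons, mul_smul, phi_dpF hw]
    split_ifs with h
    · exact ih
    · left; rfl

theorem monE_v (L : List (Fin 2 × ℕ)) : mon E L • v = 0 ∨ mon E L • v = v := by
  induction L with
  | nil => right; simp [mon_nil]
  | cons p L ih =>
    rw [mon_cons, mul_smul]
    rcases ih with h | h
    · rw [h]; left; rw [smul_zero]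
    · rw [h, dpE_v hw]
      split_ifs
      · right; rfl
      · left; rfl

/-- (K1) -/
theorem phi_int (u : U) (hu : u ∈ UZ' E F) : ∃ m : ℤ, φ (u • v) = m := by
  have h1 := mem_NN_of_mem hw v (isWt_v hw) u hu
  unfold NN at h1
  generalize u • v = w at h1 ⊢
  induction h1 using AddSubgroup.closure_induction with
  | mem x hx =>
    obtain ⟨L, L', rfl⟩ := hx
    rcases monE_v hw L' with h | h
    · exact ⟨0, by rw [h]; simp⟩
    · rw [h]
      rcases phi_monF hw L v with h | h
      · exact ⟨0, by rw [h]; simp⟩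
      · exact ⟨1, by rw [h, hw.phi_v]; simp⟩
  | zero => exact ⟨0, by simp⟩
  | add x y _ _ hx hy =>
    obtain ⟨m, hm⟩ := hx
    obtain ⟨n, hn⟩ := hy
    exact ⟨m + n, by rw [map_add, hm, hn]; push_cast; rfl⟩
  | neg x _ hx =>
    obtain ⟨m, hm⟩ := hx
    exact ⟨-m, by rw [map_neg, hm]; push_cast; rfl⟩

end
end
end Pool.Agent.Lib.H78
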