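import Pool.Agent.Lib.H78.HighestWeight

namespace Pool.Agent.Lib.H78
set_option linter.unusedSectionVars false
noncomputable section

/-! ## Serre elements in a Lie algebra -/
section Serre
variable {K : Type*} [LieRing K] [LieAlgebra ℂ K]

theorem serre_aux1 {x y f h : K} (hfx : ⁅f, x⁆ = -h) (hfy : ⁅f, y⁆ = 0)
    (hhx : ⁅h, x⁆ = (2 : ℂ) • x) (hhy : ⁅h, y⁆ = (-2 : ℂ) • y) :
    ⁅f, ⁅x, ⁅x, ⁅x, y⁆⁆⁆⁆ = 0 := by
  have h1 : ⁅f, ⁅x, y⁆⁆ = (2 : ℂ) • y := by
    rw [leibniz_lie, hfx, hfy, lie_zero, add_zero, neg_lie, hhy]; simp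
  have g1 : ⁅h, ⁅x, y⁆⁆ = 0 := by
    rw [leibniz_lie, hhx, hhy, lie_smul, smul_lie, ← add_smul]; norm_num
  have h2 : ⁅f, ⁅x, ⁅x, y⁆⁆⁆ = (2 : ℂ) • ⁅x, y⁆ := by
    rw [leibniz_lie, hfx, h1, neg_lie, g1, lie_smul]; simp
  have g2 : ⁅h, ⁅x, ⁅x, y⁆⁆⁆ = (2 : ℂ) • ⁅x, ⁅x, y⁆⁆ := by
    rw [leibniz_lie, hhx, g1, lie_zero, add_zero, smul_lie]
  rw [leibniz_lie, hfx, h2, neg_lie, g2, lie_smul]; simp

theorem serre_aux2 {x y z h : K} (hzx : ⁅z, x⁆ = 0) (hzy : ⁅z, y⁆ = -h)
    (hhx : ⁅h, x⁆ = (-2 : ℂ) • x) : ⁅z, ⁅x, ⁅x, ⁅x, y⁆⁆⁆⁆ = 0 := by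
  have h0 : ⁅x, h⁆ = (2 : ℂ) • x := by
    rw [← lie_skew, hhx, ← neg_smul]; norm_num
  have h1 : ⁅z, ⁅x, y⁆⁆ = -((2 : ℂ) • x) := by
    rw [leibniz_lie, hzx, hzy, zero_lie, zero_add, lie_neg, h0]
  have h2 : ⁅z, ⁅x, ⁅x, y⁆⁆⁆ = 0 := by
    rw [leibniz_lie, hzx, h1, zero_lie, zero_add, lie_neg, lie_smul, lie_self]; simp
  rw [leibniz_lie, hzx, h2, zero_lie, zero_add, lie_zero]

end Serre

/-! ## The dual Verma model -/

/-- functions on words -/
abbrev Dl : Type := List (Fin 2) → ℂ

/-- weight pairing of a word -/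
def wt (i : Fin 2) : List (Fin 2) → ℤ
  | [] => 0
  | j :: I => cartan i j + wt i I

/-- number of zeros -/
def c0 : List (Fin 2) → ℤ
  | [] => 0
  | j :: I => (if j = 0 then 1 else 0) + c0 I

def eo (i : Fin 2) : Module.End ℂ Dl where
  toFun θ := fun I => θ (i :: I)
  map_add' _ _ := rfl
  map_smul' _ _ := rfl

variable (lam : Fin 2 → ℤ)

def ho (i : Fin 2) : Module.End ℂ Dl where
  toFun θ := fun I => (((lam i - wt i I : ℤ)) : ℂ) * θ I
  map_add' x y := by funext I; simp [mul_add]
  map_smul' r x := by funext I; simp; ring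

def dd : Module.End ℂ Dl where
  toFun θ := fun I => ((-c0 I : ℤ) : ℂ) * θ I
  map_add' x y := by funext I; simp only [Pi.add_apply]; ring
  map_smul' r x := by funext I; simp; ring

def foAux (i : Fin 2) : List (Fin 2) → Dl → ℂ
  | [], _ => 0
  | j :: I, θ => foAux i I (eo j θ) + (if i = j then (((lam i - wt i I : ℤ)) : ℂ) * θ I else 0)

theorem foAux_add (i : Fin 2) (I : List (Fin 2)) (x y : Dl) :
    foAux lam i I (x + y) = foAux lam i I x + foAux lam i I y := by
  induction I generalizing x y with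
  | nil => simp [foAux]
  | cons j I ih =>
    simp only [foAux, map_add, ih, Pi.add_apply]
    split_ifs <;> ring

theorem foAux_smul (i : Fin 2) (I : List (Fin 2)) (r : ℂ) (x : Dl) :
    foAux lam i I (r • x) = r * foAux lam i I x := by
  induction I generalizing x with
  | nil => simp [foAux]
  | cons j I ih =>
    simp only [foAux, map_smul, ih, Pi.smul_apply, smul_eq_mul]
    split_ifs <;> ring

def fo (i : Fin 2) : Module.End ℂ Dl where
  toFun θ := fun I => foAux lam i I θ
  map_add' x y := by funext I; exact foAux_add lam i I x y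
  map_smul' r x := by funext I; exact foAux_smul lam i I r x

theorem eo_apply (i : Fin 2) (θ : Dl) (I : List (Fin 2)) : eo i θ I = θ (i :: I) := rfl
theorem ho_apply (i : Fin 2) (θ : Dl) (I : List (Fin 2)) :
    ho lam i θ I = (((lam i - wt i I : ℤ)) : ℂ) * θ I := rfl
theorem dd_apply (θ : Dl) (I : List (Fin 2)) : dd θ I = ((-c0 I : ℤ) : ℂ) * θ I := rfl
theorem fo_nil (i : Fin 2) (θ : Dl) : fo lam i θ [] = 0 := rfl
theorem fo_cons (i j : Fin 2) (θ : Dl) (I : List (Fin 2)) :
    fo lam i θ (j :: I) = fo lam i (eo j θ) I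
      + (if i = j then (((lam i - wt i I : ℤ)) : ℂ) * θ I else 0) := rfl

theorem eo_fo (i j : Fin 2) (θ : Dl) :
    eo i (fo lam j θ) = fo lam j (eo i θ) + (if i = j then ho lam i θ else 0) := by
  funext I
  rw [eo_apply, fo_cons]
  by_cases h : i = j
  · subst h; simp [ho_apply]
  · rw [if_neg h, if_neg (fun h' => h h'.symm)]; simp

theorem ho_eo (i j : Fin 2) (θ : Dl) :
    ho lam i (eo j θ) = eo j (ho lam i θ) + ((cartan i j : ℤ) : ℂ) • eo j θ := by
  funext I
  simp only [Pi.add_apply, Pi.smul_apply, smul_eq_mul, ho_apply, eo_apply, wt]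
  push_cast
  ring

theorem dd_eo (j : Fin 2) (θ : Dl) :
    dd (eo j θ) = eo j (dd θ) + (if j = 0 then (1 : ℂ) else 0) • eo j θ := by
  funext I
  simp only [Pi.add_apply, Pi.smul_apply, smul_eq_mul, dd_apply, eo_apply, c0]
  split_ifs <;> push_cast <;> ring

theorem ho_fo (i j : Fin 2) (θ : Dl) :
    ho lam i (fo lam j θ) = fo lam j (ho lam i θ) - ((cartan i j : ℤ) : ℂ) • fo lam j θ := by
  funext I
  induction I generalizing θ with
  | nil => simp [ho_apply, fo_nil]
  | cons k I ih =>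
    have h1 := ih (eo k θ)
    rw [Pi.sub_apply, Pi.smul_apply, smul_eq_mul] at h1 ⊢
    rw [ho_eo, map_add, map_smul] at h1
    rw [Pi.add_apply, Pi.smul_apply, smul_eq_mul, ho_apply] at h1
    rw [ho_apply, fo_cons, fo_cons, ho_apply, wt]
    by_cases h : j = k
    · subst h
      simp only [if_true]
      push_cast at h1 ⊢
      linear_combination h1
    · simp only [if_neg h]
      push_cast at h1 ⊢
      linear_combination h1

theorem dd_fo (j : Fin 2) (θ : Dl) :
    dd (fo lam j θ) = fo lam j (dd θ) - (if j = 0 then (1 : ℂ) else 0) • fo lam j θ := by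
  funext I
  induction I generalizing θ with
  | nil => rw [Pi.sub_apply, Pi.smul_apply, dd_apply, fo_nil, fo_nil]; simp
  | cons k I ih =>
    have h1 := ih (eo k θ)
    rw [Pi.sub_apply, Pi.smul_apply, smul_eq_mul] at h1 ⊢
    rw [dd_eo, map_add, map_smul] at h1
    rw [Pi.add_apply, Pi.smul_apply, smul_eq_mul, dd_apply] at h1
    rw [dd_apply, fo_cons, fo_cons, dd_apply, c0]
    by_cases h : j = k
    · subst h
      simp only [if_true]
      by_cases h' : j = 0
      · simp only [if_pos h'] at h1 ⊢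
        push_cast at h1 ⊢
        linear_combination h1
      · simp only [if_neg h'] at h1 ⊢
        push_cast at h1 ⊢
        linear_combination h1
    · simp only [if_neg h]
      by_cases h' : k = 0
      · by_cases h'' : j = 0
        · exact absurd (h''.trans h'.symm) h
        · simp only [if_pos h', if_neg h''] at h1 ⊢
          push_cast at h1 ⊢
          linear_combination h1
      · by_cases h'' : j = 0
        · simp only [if_neg h', if_pos h''] at h1 ⊢
          push_cast at h1 ⊢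
          linear_combination h1
        · simp only [if_neg h', if_neg h''] at h1 ⊢
          push_cast at h1 ⊢
          linear_combination h1

theorem ho_ho (i j : Fin 2) (θ : Dl) : ho lam i (ho lam j θ) = ho lam j (ho lam i θ) := by
  funext I; simp only [ho_apply]; ring

theorem dd_ho (i : Fin 2) (θ : Dl) : dd (ho lam i θ) = ho lam i (dd θ) := by
  funext I; simp only [ho_apply, dd_apply]; ring

/-- vacuum -/
def vac : Dl := fun I => if I = [] then 1 else 0

theorem eo_vac (i : Fin 2) : eo i vac = 0 := by funext I; simp [eo_apply, vac]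

theorem ho_vac (i : Fin 2) : ho lam i vac = ((lam i : ℤ) : ℂ) • vac := by
  funext I
  rw [ho_apply, Pi.smul_apply, vac]
  split_ifs with h
  · subst h; simp [wt]
  · simp

theorem dd_vac : dd vac = 0 := by
  funext I
  rw [dd_apply, vac]
  split_ifs with h
  · subst h; simp [c0]
  · simp

/-! ## The submodule generated by the vacuum -/

/-- words in the lowering operators applied to the vacuum -/
def wvec (J : List (Fin 2)) : Dl := (J.map (fo lam)).prod vac

theorem wvec_nil : wvec lam [] = vac := rfl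

theorem wvec_cons (j : Fin 2) (J : List (Fin 2)) : wvec lam (j :: J) = fo lam j (wvec lam J) := by
  simp [wvec]

def L0 : Submodule ℂ Dl := Submodule.span ℂ (Set.range (wvec lam))

theorem wvec_mem (J : List (Fin 2)) : wvec lam J ∈ L0 lam := Submodule.subset_span ⟨J, rfl⟩

theorem L0_of {G : Module.End ℂ Dl} (h : ∀ J, G (wvec lam J) ∈ L0 lam) :
    ∀ x ∈ L0 lam, G x ∈ L0 lam := by
  intro x hx
  unfold L0 at hx
  induction hx using Submodule.span_induction with
  | mem x hx => obtain ⟨J, rfl⟩ := hx; exact h J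
  | zero => rw [map_zero]; exact zero_mem _
  | add x y _ _ hx hy => rw [map_add]; exact add_mem hx hy
  | smul a x _ hx => rw [map_smul]; exact Submodule.smul_mem _ _ hx

theorem fo_mem (i : Fin 2) : ∀ x ∈ L0 lam, fo lam i x ∈ L0 lam :=
  L0_of lam fun J => by rw [← wvec_cons]; exact wvec_mem lam _

theorem ho_wvec (i : Fin 2) (J : List (Fin 2)) : ∃ c : ℂ, ho lam i (wvec lam J) = c • wvec lam J := by
  induction J with
  | nil => exact ⟨_, ho_vac lam i⟩
  | cons j J ih =>
    obtain ⟨c, hc⟩ := ih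
    refine ⟨c - ((cartan i j : ℤ) : ℂ), ?_⟩
    rw [wvec_cons, ho_fo, hc, map_smul, sub_smul]

theorem dd_wvec (J : List (Fin 2)) : ∃ c : ℂ, dd (wvec lam J) = c • wvec lam J := by
  induction J with
  | nil => exact ⟨0, by rw [wvec_nil, dd_vac, zero_smul]⟩
  | cons j J ih =>
    obtain ⟨c, hc⟩ := ih
    refine ⟨c - (if j = 0 then (1 : ℂ) else 0), ?_⟩
    rw [wvec_cons, dd_fo, hc, map_smul, sub_smul]

theorem ho_mem (i : Fin 2) : ∀ x ∈ L0 lam, ho lam i x ∈ L0 lam :=
  L0_of lam fun J => by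
    obtain ⟨c, hc⟩ := ho_wvec lam i J
    rw [hc]; exact Submodule.smul_mem _ _ (wvec_mem lam J)

theorem dd_mem : ∀ x ∈ L0 lam, dd x ∈ L0 lam :=
  L0_of lam fun J => by
    obtain ⟨c, hc⟩ := dd_wvec lam J
    rw [hc]; exact Submodule.smul_mem _ _ (wvec_mem lam J)

theorem eo_mem (i : Fin 2) : ∀ x ∈ L0 lam, eo i x ∈ L0 lam :=
  L0_of lam fun J => by
    induction J with
    | nil => rw [wvec_nil, eo_vac]; exact zero_mem _
    | cons j J ih =>
      rw [wvec_cons, eo_fo]
      apply add_mem (fo_mem lam j _ ih)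
      split_ifs
      · exact ho_mem lam i _ (wvec_mem lam J)
      · exact zero_mem _

/-- operators attached to generators, on all functions -/
def opD : Gen → Module.End ℂ Dl
  | .e i => eo i
  | .f i => fo lam i
  | .h i => ho lam i
  | .d => dd

theorem opD_mem (g : Gen) : ∀ x ∈ L0 lam, opD lam g x ∈ L0 lam := by
  cases g with
  | e i => exact eo_mem lam i
  | f i => exact fo_mem lam i
  | h i => exact ho_mem lam i
  | d => exact dd_mem lam

/-- operators on the submodule -/
def op (g : Gen) : Module.End ℂ (L0 lam) := (opD lam g).restrict (opD_mem lam g)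

theorem op_coe (g : Gen) (x : L0 lam) : ((op lam g x : L0 lam) : Dl) = opD lam g (x : Dl) := rfl

end
end Pool.Agent.Lib.H78
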