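import Pool.Agent.Lib.H78.Simple

open scoped TensorProduct

namespace Pool.Agent.Lib.H78
set_option linter.unusedSectionVars false
noncomputable section

theorem UZ_eq : UZ = UZ' (fun i => gen (.e i)) (fun i => gen (.f i)) := by
  unfold UZ UZ'
  congr 1

section
variable (F : Type*) [Field F] (M : Type*) [AddCommGroup M] [Module U M] (v : M)

theorem act_tmul (u : UZ) (a : F) (y : VZ M v) :
    act F (VZ M v) u (a ⊗ₜ y) = a ⊗ₜ (u • y) := rfl

/-- elements of the lattice -/
theorem VZ_mem (y : VZ M v) : ∃ u : UZ, (y : M) = (u : U) • v := by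
  have h := y.2
  unfold VZ at h
  obtain ⟨u, hu⟩ := Submodule.mem_span_singleton.1 h
  exact ⟨u, hu.symm⟩

/-- an integer functional induces a functional on the reduction -/
def redF (g : VZ M v →ₗ[ℤ] ℤ) : F ⊗[ℤ] VZ M v →ₗ[F] F :=
  (TensorProduct.AlgebraTensorModule.rid ℤ F F).toLinearMap.comp (LinearMap.baseChange F g)

theorem redF_tmul (g : VZ M v →ₗ[ℤ] ℤ) (a : F) (y : VZ M v) :
    redF F M v g (a ⊗ₜ y) = (g y : ℤ) • a := by
  simp [redF]

variable [Module ℂ M] [IsScalarTower ℂ U M]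

/-- turn an integral valued functional on the lattice into an integer valued one -/
theorem exists_int_functional (k : ℤ) (hk : k ≠ 0) (G : M →ₗ[ℂ] ℂ)
    (h : ∀ u : UZ, ∃ m : ℤ, G ((u : U) • v) = (k : ℂ) * m) :
    ∃ g : VZ M v →ₗ[ℤ] ℤ, ∀ y : VZ M v, G (y : M) = (k : ℂ) * (g y : ℂ) := by
  have h' : ∀ y : VZ M v, ∃ m : ℤ, G (y : M) = (k : ℂ) * m := by
    intro y
    obtain ⟨u, hu⟩ := VZ_mem M v y
    rw [hu]; exact h u
  choose g hg using h'
  have hk' : (k : ℂ) ≠ 0 := by exact_mod_cast hk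
  have hadd : ∀ x y, g (x + y) = g x + g y := by
    intro x y
    have h1 := hg (x + y)
    have h2 : ((x + y : VZ M v) : M) = (x : M) + (y : M) := rfl
    rw [h2, map_add, hg x, hg y, ← mul_add] at h1
    have h3 := mul_left_cancel₀ hk' h1
    exact_mod_cast h3.symm
  refine ⟨(AddMonoidHom.mk' g hadd).toIntLinearMap, fun y => ?_⟩
  exact hg y

/-- left action of an element of the enveloping algebra as a linear map -/
def actEnd (r : U) : M →ₗ[ℂ] M where
  toFun := fun y => r • y
  map_add' := fun a b => smul_add r a b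
  map_smul' := fun c a => by
    show r • c • a = c • r • a
    rw [← algebraMap_smul U c a, ← algebraMap_smul U c (r • a), smul_smul, smul_smul,
      Algebra.commutes]

/-- The Weyl module with highest weight `3 ω_0` over a field of characteristic `23` has a nonzero
proper submodule. -/
theorem reducible_of_HW [CharP F 23] {φ : M →ₗ[ℂ] ℂ} {P : U} {lam : Fin 2 → ℤ}
    (hw : HW (fun i => gen (.e i)) (fun i => gen (.f i)) (fun i => gen (.h i)) P v φ lam)
    (h0 : lam 0 = 3) (h1 : lam 1 = 0) : WeylReducible F M v := by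
  set x : M := T.evL (fun i => gen (.f i)) T.cert • v with hx
  set R : U := T.evR (fun i => gen (.e i)) T.cert with hR
  -- x lies in the lattice
  have hxu : T.evL (fun i => gen (.f i)) T.cert ∈ UZ := by
    rw [UZ_eq]; exact evL_mem hw _
  have hxm : x ∈ VZ M v := by
    unfold VZ
    exact Submodule.mem_span_singleton.2 ⟨⟨_, hxu⟩, rfl⟩
  -- the two integral functionals
  obtain ⟨g, hg⟩ := exists_int_functional M v 1 one_ne_zero φ (by
    intro u
    obtain ⟨m, hm⟩ := phi_int hw (u : U) (by rw [← UZ_eq]; exact u.2)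
    exact ⟨m, by rw [hm]; simp⟩)
  obtain ⟨g', hg'⟩ := exists_int_functional M v 23 (by norm_num)
    (φ.comp (actEnd M R)) (by
    intro u
    obtain ⟨m, hm⟩ := K3 hw h0 h1 (u : U) (by rw [← UZ_eq]; exact u.2)
    exact ⟨m, hm⟩)
  -- the submodule
  let W : Submodule F (F ⊗[ℤ] VZ M v) := Submodule.span F
    {w | ∃ y : VZ M v, (∀ u : UZ, ∃ m : ℤ, φ ((u : U) • (y : M)) = 23 * (m : ℂ)) ∧
      w = (1 : F) ⊗ₜ[ℤ] y}
  have h23 : (23 : F) = 0 := by exact_mod_cast CharP.cast_eq_zero F 23
  refine ⟨W, ?_, ?_, ?_⟩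
  · -- stability
    intro u w hw'
    induction hw' using Submodule.span_induction with
    | mem w hw' =>
      obtain ⟨y, hy, rfl⟩ := hw'
      rw [act_tmul]
      apply Submodule.subset_span
      refine ⟨u • y, fun u' => ?_, rfl⟩
      obtain ⟨m, hm⟩ := hy (u' * u)
      refine ⟨m, ?_⟩
      rw [← hm]
      have : ((u • y : VZ M v) : M) = (u : U) • (y : M) := rfl
      rw [this, ← mul_smul]
      rfl
    | zero => rw [map_zero]; exact zero_mem _
    | add a b _ _ ha hb => rw [map_add]; exact add_mem ha hb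
    | smul c a _ ha => rw [map_smul]; exact Submodule.smul_mem _ _ ha
  · -- nonzero
    intro hbot
    have hmem : (1 : F) ⊗ₜ[ℤ] (⟨x, hxm⟩ : VZ M v) ∈ W := by
      apply Submodule.subset_span
      refine ⟨⟨x, hxm⟩, fun u => ?_, rfl⟩
      exact K2 hw h0 h1 (u : U) (by rw [← UZ_eq]; exact u.2)
    rw [hbot, Submodule.mem_bot] at hmem
    have h2 := congrArg (redF F M v g') hmem
    rw [redF_tmul, map_zero] at h2
    have h3 := hg' ⟨x, hxm⟩
    have h4 := K4 hw h0 h1
    have h5 : ((23 : ℤ) : ℂ) * (g' ⟨x, hxm⟩ : ℂ) = 66584448 := by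
      rw [← h3, ← h4]
      rfl
    have h6 : g' ⟨x, hxm⟩ = 2894976 := by
      have : (23 : ℤ) * g' ⟨x, hxm⟩ = 66584448 := by exact_mod_cast h5
      omega
    rw [h6] at h2
    have h7 : ((2894976 : ℕ) : F) = 0 := by
      have : ((2894976 : ℤ) • (1 : F)) = 0 := h2
      rw [zsmul_eq_mul, mul_one] at this
      exact_mod_cast this
    rw [CharP.cast_eq_zero_iff F 23] at h7
    norm_num at h7
  · -- proper
    intro htop
    have hv : v ∈ VZ M v := Submodule.mem_span_singleton_self _
    have hmem : (1 : F) ⊗ₜ[ℤ] (⟨v, hv⟩ : VZ M v) ∈ W := by rw [htop]; trivial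
    have hker : W ≤ LinearMap.ker (redF F M v g) := by
      apply Submodule.span_le.2
      rintro _ ⟨y, hy, rfl⟩
      show redF F M v g _ = 0
      rw [redF_tmul]
      obtain ⟨m, hm⟩ := hy 1
      have h2 : φ (y : M) = 23 * (m : ℂ) := by
        rw [← hm]; simp
      rw [hg y] at h2
      have h3 : g y = 23 * m := by
        have h4 : ((1 : ℤ) : ℂ) * (g y : ℂ) = 23 * (m : ℂ) := h2
        have h5 : (1 : ℤ) * g y = 23 * m := by exact_mod_cast h4
        omega
      rw [h3, zsmul_eq_mul, mul_one]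
      push_cast
      rw [h23, zero_mul]
    have h2 := hker hmem
    rw [LinearMap.mem_ker, redF_tmul] at h2
    have h3 : g ⟨v, hv⟩ = 1 := by
      have h4 := hg ⟨v, hv⟩
      rw [hw.phi_v] at h4
      have h5 : (1 : ℤ) = 1 * g ⟨v, hv⟩ := by exact_mod_cast h4
      omega
    rw [h3, one_smul] at h2
    exact one_ne_zero h2

end

end
end Pool.Agent.Lib.H78
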