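import Pool.Agent.Lib.H78.Rep

namespace Pool.Agent.Lib.H78
set_option linter.unusedSectionVars false
noncomputable section

attribute [local instance 100] LieRing.ofAssociativeRing

/-- The free Lie algebra maps to the enveloping algebra. -/
def jj : FreeLieAlgebra ℂ Gen →ₗ⁅ℂ⁆ U :=
  { (UniversalEnvelopingAlgebra.ι ℂ : AffineSl2 →ₗ⁅ℂ⁆ U).toLinearMap.comp
      (relIdeal.toSubmodule.mkQ) with
    map_lie' := by
      intro x y
      exact LieHom.map_lie (UniversalEnvelopingAlgebra.ι ℂ : AffineSl2 →ₗ⁅ℂ⁆ U)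
        (LieSubmodule.Quotient.mk x : AffineSl2) (LieSubmodule.Quotient.mk y : AffineSl2) }

theorem jj_apply (x : FreeLieAlgebra ℂ Gen) :
    jj x = UniversalEnvelopingAlgebra.ι ℂ (LieSubmodule.Quotient.mk x : AffineSl2) := rfl

theorem jj_fr (g : Gen) : jj (fr g) = gen g := rfl

theorem jj_rel {x : FreeLieAlgebra ℂ Gen} (hx : IsRelation x) : jj x = 0 := by
  have h1 : x ∈ relIdeal := LieSubmodule.subset_lieSpan hx
  have h2 : (LieSubmodule.Quotient.mk x : AffineSl2) = 0 :=
    (LieSubmodule.Quotient.mk_eq_zero').2 h1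
  rw [jj_apply, h2, map_zero]

theorem gen_ef_same (i : Fin 2) : gen (.e i) * gen (.f i) = gen (.f i) * gen (.e i) + gen (.h i) := by
  have h := jj_rel (IsRelation.ef_same i)
  rw [map_sub, LieHom.map_lie, jj_fr, jj_fr, jj_fr, LieRing.of_associative_ring_bracket] at h
  rw [sub_sub, sub_eq_zero] at h
  exact h

theorem gen_ef_diff (i j : Fin 2) (hij : i ≠ j) :
    gen (.e i) * gen (.f j) = gen (.f j) * gen (.e i) := by
  have h := jj_rel (IsRelation.ef_diff i j hij)
  rw [LieHom.map_lie, jj_fr, jj_fr, LieRing.of_associative_ring_bracket] at h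
  exact sub_eq_zero.1 h

theorem gen_he (i j : Fin 2) :
    gen (.h i) * gen (.e j) = gen (.e j) * gen (.h i) + ((cartan i j : ℤ) : ℂ) • gen (.e j) := by
  have h := jj_rel (IsRelation.he i j)
  rw [map_sub, LieHom.map_lie, map_zsmul, jj_fr, jj_fr, LieRing.of_associative_ring_bracket] at h
  rw [sub_sub, sub_eq_zero] at h
  rw [h, Int.cast_smul_eq_zsmul]

theorem gen_hf (i j : Fin 2) :
    gen (.h i) * gen (.f j) = gen (.f j) * gen (.h i) - ((cartan i j : ℤ) : ℂ) • gen (.f j) := by
  have h := jj_rel (IsRelation.hf i j)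
  rw [map_add, LieHom.map_lie, map_zsmul, jj_fr, jj_fr, LieRing.of_associative_ring_bracket] at h
  rw [Int.cast_smul_eq_zsmul]
  rw [add_eq_zero_iff_eq_neg, sub_eq_iff_eq_add] at h
  rw [h]; abel

theorem gen_de (j : Fin 2) :
    gen .d * gen (.e j) = gen (.e j) * gen .d + (if j = 0 then (1 : ℂ) else 0) • gen (.e j) := by
  by_cases hj : j = 0
  · subst hj
    have h := jj_rel IsRelation.de_zero
    rw [map_sub, LieHom.map_lie, jj_fr, jj_fr, LieRing.of_associative_ring_bracket] at h
    rw [sub_sub, sub_eq_zero] at h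
    rw [h, if_pos rfl, one_smul]
  · have hj' : j = 1 := by fin_cases j <;> simp_all
    subst hj'
    have h := jj_rel IsRelation.de_one
    rw [LieHom.map_lie, jj_fr, jj_fr, LieRing.of_associative_ring_bracket] at h
    rw [if_neg hj, zero_smul, add_zero]
    exact sub_eq_zero.1 h

theorem gen_df (j : Fin 2) :
    gen .d * gen (.f j) = gen (.f j) * gen .d - (if j = 0 then (1 : ℂ) else 0) • gen (.f j) := by
  by_cases hj : j = 0
  · subst hj
    have h := jj_rel IsRelation.df_zero
    rw [map_add, LieHom.map_lie, jj_fr, jj_fr, LieRing.of_associative_ring_bracket] at h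
    rw [add_eq_zero_iff_eq_neg, sub_eq_iff_eq_add] at h
    rw [h, if_pos rfl, one_smul]; abel
  · have hj' : j = 1 := by fin_cases j <;> simp_all
    subst hj'
    have h := jj_rel IsRelation.df_one
    rw [LieHom.map_lie, jj_fr, jj_fr, LieRing.of_associative_ring_bracket] at h
    rw [if_neg hj, zero_smul, sub_zero]
    exact sub_eq_zero.1 h

/-! ## The generators generate -/

theorem free_generated (B : LieSubalgebra ℂ (FreeLieAlgebra ℂ Gen)) (hB : ∀ g, fr g ∈ B)
    (x : FreeLieAlgebra ℂ Gen) : x ∈ B := by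
  let φ : FreeLieAlgebra ℂ Gen →ₗ⁅ℂ⁆ B := FreeLieAlgebra.lift ℂ (fun g => ⟨fr g, hB g⟩)
  have h : B.incl.comp φ = LieHom.id := by
    apply FreeLieAlgebra.hom_ext
    intro g
    rw [LieHom.comp_apply, FreeLieAlgebra.lift_of_apply]
    rfl
  have h2 := congrArg (fun f : FreeLieAlgebra ℂ Gen →ₗ⁅ℂ⁆ FreeLieAlgebra ℂ Gen => f x) h
  have h3 : ((φ x : B) : FreeLieAlgebra ℂ Gen) = x := h2
  rw [← h3]
  exact (φ x).2

/-- The subalgebra generated by the generators. -/
def genAlg : Subalgebra ℂ U := Algebra.adjoin ℂ (Set.range gen)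

theorem iota_mem (x : AffineSl2) : UniversalEnvelopingAlgebra.ι ℂ x ∈ genAlg := by
  obtain ⟨y, rfl⟩ : ∃ y, (LieSubmodule.Quotient.mk y : AffineSl2) = x := by
    induction x using Submodule.Quotient.induction_on with
    | _ y => exact ⟨y, rfl⟩
  rw [← jj_apply]
  let B : LieSubalgebra ℂ (FreeLieAlgebra ℂ Gen) :=
    { (genAlg.toSubmodule).comap (jj : FreeLieAlgebra ℂ Gen →ₗ[ℂ] U) with
      lie_mem' := by
        intro a b ha hb
        have ha' : jj a ∈ genAlg := ha
        have hb' : jj b ∈ genAlg := hb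
        show jj ⁅a, b⁆ ∈ genAlg
        rw [LieHom.map_lie, LieRing.of_associative_ring_bracket]
        exact sub_mem (mul_mem ha' hb') (mul_mem hb' ha') }
  exact free_generated B (fun g => Algebra.subset_adjoin ⟨g, rfl⟩) y

theorem genAlg_eq_top : genAlg = ⊤ := by
  rw [eq_top_iff]
  intro u _
  let f0 : AffineSl2 →ₗ⁅ℂ⁆ genAlg :=
    { toFun := fun x => ⟨UniversalEnvelopingAlgebra.ι ℂ x, iota_mem x⟩
      map_add' := by intro x y; apply Subtype.ext; simp
      map_smul' := by intro r x; apply Subtype.ext; simp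
      map_lie' := by
        intro x y
        apply Subtype.ext
        exact LieHom.map_lie (UniversalEnvelopingAlgebra.ι ℂ : AffineSl2 →ₗ⁅ℂ⁆ U) x y }
  let f1 : U →ₐ[ℂ] genAlg := UniversalEnvelopingAlgebra.lift ℂ f0
  have h : genAlg.val.comp f1 = AlgHom.id ℂ U := by
    apply UniversalEnvelopingAlgebra.hom_ext
    ext x
    have : f1 (UniversalEnvelopingAlgebra.ι ℂ x) = f0 x := UniversalEnvelopingAlgebra.lift_ι_apply _ _ _
    show genAlg.val (f1 (UniversalEnvelopingAlgebra.ι ℂ x)) = UniversalEnvelopingAlgebra.ι ℂ x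
    rw [this]
    rfl
  have h2 := congrArg (fun f : U →ₐ[ℂ] U => f u) h
  have h3 : ((f1 u : genAlg) : U) = u := h2
  rw [← h3]
  exact (f1 u).2

end
end Pool.Agent.Lib.H78
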