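import Pool.Agent.Lib.H78.LoopModel

namespace Pool.Agent.Lib.H78
set_option linter.unusedSectionVars false
noncomputable section

attribute [local instance 100] LieRing.ofAssociativeRing

variable (lam : Fin 2 → ℤ)

/-- The free Lie algebra acts on the model. -/
def rho0 : FreeLieAlgebra ℂ Gen →ₗ⁅ℂ⁆ Module.End ℂ (L0 lam) := FreeLieAlgebra.lift ℂ (op lam)

theorem rho0_fr (g : Gen) : rho0 lam (fr g) = op lam g := FreeLieAlgebra.lift_of_apply _ _

theorem cartan_01 (i j : Fin 2) (h : i ≠ j) : cartan i j = -2 := by
  fin_cases i <;> fin_cases j <;> first | rfl | exact absurd rfl h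

/-- bracket relations between the operators on all functions -/
theorem opD_ef (i j : Fin 2) : ⁅opD lam (.e i), opD lam (.f j)⁆ = if i = j then opD lam (.h i) else 0 := by
  apply LinearMap.ext
  intro θ
  rw [LieRing.of_associative_ring_bracket, LinearMap.sub_apply, Module.End.mul_apply,
    Module.End.mul_apply]
  show eo i (fo lam j θ) - fo lam j (eo i θ) = _
  rw [eo_fo]
  split_ifs with h
  · show _ = ho lam i θ
    abel
  · simp

theorem opD_he (i j : Fin 2) :
    ⁅opD lam (.h i), opD lam (.e j)⁆ = ((cartan i j : ℤ) : ℂ) • opD lam (.e j) := by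
  apply LinearMap.ext
  intro θ
  rw [LieRing.of_associative_ring_bracket, LinearMap.sub_apply, Module.End.mul_apply,
    Module.End.mul_apply]
  show ho lam i (eo j θ) - eo j (ho lam i θ) = ((cartan i j : ℤ) : ℂ) • eo j θ
  rw [ho_eo]
  abel

theorem opD_hf (i j : Fin 2) :
    ⁅opD lam (.h i), opD lam (.f j)⁆ = -((cartan i j : ℤ) : ℂ) • opD lam (.f j) := by
  apply LinearMap.ext
  intro θ
  rw [LieRing.of_associative_ring_bracket, LinearMap.sub_apply, Module.End.mul_apply,
    Module.End.mul_apply]
  show ho lam i (fo lam j θ) - fo lam j (ho lam i θ) = -((cartan i j : ℤ) : ℂ) • fo lam j θ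
  rw [ho_fo, neg_smul]
  abel

theorem opD_serre_f (i j : Fin 2) (h : i ≠ j) :
    ⁅opD lam (.f i), ⁅opD lam (.f i), ⁅opD lam (.f i), opD lam (.f j)⁆⁆⁆ = 0 := by
  set S := ⁅opD lam (.f i), ⁅opD lam (.f i), ⁅opD lam (.f i), opD lam (.f j)⁆⁆⁆ with hS
  -- commutes with the raising operators
  have hc : ∀ k, ⁅opD lam (.e k), S⁆ = 0 := by
    intro k
    by_cases hk : k = i
    · subst hk
      apply serre_aux1 (h := -opD lam (.h k))
      · rw [opD_ef, if_pos rfl, neg_neg]
      · rw [opD_ef, if_neg h]
      · rw [neg_lie, opD_hf, cartan_diag]; push_cast; module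
      · rw [neg_lie, opD_hf, cartan_01 k j h]; push_cast; module
    · have hkj : k = j := by
        fin_cases i <;> fin_cases j <;> fin_cases k <;> simp_all
      subst hkj
      apply serre_aux2 (h := -opD lam (.h k))
      · rw [opD_ef, if_neg hk]
      · rw [opD_ef, if_pos rfl, neg_neg]
      · rw [neg_lie, opD_hf, cartan_01 k i hk]; push_cast; module
  have hc' : ∀ k θ, eo k (S θ) = S (eo k θ) := by
    intro k θ
    have := congrArg (fun G : Module.End ℂ Dl => G θ) (hc k)
    simp only [LieRing.of_associative_ring_bracket, LinearMap.sub_apply, Module.End.mul_apply] at this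
    exact sub_eq_zero.1 this
  have hnil : ∀ θ, S θ [] = 0 := by
    intro θ
    rw [hS]
    simp only [LieRing.of_associative_ring_bracket, LinearMap.sub_apply, Module.End.mul_apply,
      Pi.sub_apply, opD, fo_nil]
    simp
  apply LinearMap.ext
  intro θ
  funext I
  induction I generalizing θ with
  | nil => exact hnil θ
  | cons k I ih =>
    have h1 : S θ (k :: I) = eo k (S θ) I := rfl
    rw [h1, hc', ih]; rfl

theorem opD_serre_e (i j : Fin 2) (h : i ≠ j) (x : Dl) (hx : x ∈ L0 lam) :
    ⁅opD lam (.e i), ⁅opD lam (.e i), ⁅opD lam (.e i), opD lam (.e j)⁆⁆⁆ x = 0 := by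
  set S := ⁅opD lam (.e i), ⁅opD lam (.e i), ⁅opD lam (.e i), opD lam (.e j)⁆⁆⁆ with hS
  have hfe : ∀ a b, ⁅opD lam (.f a), opD lam (.e b)⁆ = if b = a then -opD lam (.h b) else 0 := by
    intro a b
    rw [← lie_skew, opD_ef]
    split_ifs <;> simp
  have hc : ∀ k, ⁅opD lam (.f k), S⁆ = 0 := by
    intro k
    by_cases hk : k = i
    · subst hk
      apply serre_aux1 (h := opD lam (.h k))
      · rw [hfe, if_pos rfl]
      · rw [hfe, if_neg (fun h' => h h'.symm)]
      · rw [opD_he, cartan_diag]; push_cast; module
      · rw [opD_he, cartan_01 k j h]; push_cast; module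
    · have hkj : k = j := by
        fin_cases i <;> fin_cases j <;> fin_cases k <;> simp_all
      subst hkj
      apply serre_aux2 (h := opD lam (.h k))
      · rw [hfe, if_neg (fun h' => hk h'.symm)]
      · rw [hfe, if_pos rfl]
      · rw [opD_he, cartan_01 k i hk]; push_cast; module
  have hc' : ∀ k θ, fo lam k (S θ) = S (fo lam k θ) := by
    intro k θ
    have := congrArg (fun G : Module.End ℂ Dl => G θ) (hc k)
    simp only [LieRing.of_associative_ring_bracket, LinearMap.sub_apply, Module.End.mul_apply] at this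
    exact sub_eq_zero.1 this
  have hv : S vac = 0 := by
    rw [hS]
    simp only [LieRing.of_associative_ring_bracket, LinearMap.sub_apply, Module.End.mul_apply,
      opD, eo_vac, map_zero, sub_zero]
  unfold L0 at hx
  induction hx using Submodule.span_induction with
  | mem x hx =>
    obtain ⟨J, rfl⟩ := hx
    induction J with
    | nil => exact hv
    | cons k J ih => rw [wvec_cons, ← hc', ih, map_zero]
  | zero => rw [map_zero]
  | add x y _ _ hx hy => rw [map_add, hx, hy, add_zero]
  | smul a x _ hx => rw [map_smul, hx, smul_zero]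

/-- brackets on the submodule are restrictions of brackets on all functions -/
theorem op_ext {A B : Module.End ℂ (L0 lam)}
    (h : ∀ x : L0 lam, ((A x : L0 lam) : Dl) = ((B x : L0 lam) : Dl)) : A = B :=
  LinearMap.ext fun x => Subtype.ext (h x)

theorem rho0_rel {x : FreeLieAlgebra ℂ Gen} (hx : IsRelation x) : rho0 lam x = 0 := by
  cases hx with
  | hh i j =>
    rw [LieHom.map_lie, rho0_fr, rho0_fr]
    apply op_ext; intro x
    rw [LieRing.of_associative_ring_bracket, LinearMap.sub_apply, Module.End.mul_apply,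
      Module.End.mul_apply]
    show ho lam i (ho lam j x) - ho lam j (ho lam i x) = 0
    rw [ho_ho, sub_self]
  | dh i =>
    rw [LieHom.map_lie, rho0_fr, rho0_fr]
    apply op_ext; intro x
    rw [LieRing.of_associative_ring_bracket, LinearMap.sub_apply, Module.End.mul_apply,
      Module.End.mul_apply]
    show dd (ho lam i x) - ho lam i (dd x) = 0
    rw [dd_ho, sub_self]
  | ef_same i =>
    rw [map_sub, LieHom.map_lie, rho0_fr, rho0_fr, rho0_fr]
    apply op_ext; intro x
    rw [LieRing.of_associative_ring_bracket, LinearMap.sub_apply, LinearMap.sub_apply,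
      Module.End.mul_apply, Module.End.mul_apply]
    show eo i (fo lam i x) - fo lam i (eo i x) - ho lam i x = 0
    rw [eo_fo, if_pos rfl]; abel
  | ef_diff i j h =>
    rw [LieHom.map_lie, rho0_fr, rho0_fr]
    apply op_ext; intro x
    rw [LieRing.of_associative_ring_bracket, LinearMap.sub_apply,
      Module.End.mul_apply, Module.End.mul_apply]
    show eo i (fo lam j x) - fo lam j (eo i x) = 0
    rw [eo_fo, if_neg h]; abel
  | he i j =>
    rw [map_sub, LieHom.map_lie, map_zsmul, rho0_fr, rho0_fr]
    apply op_ext; intro x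
    rw [LieRing.of_associative_ring_bracket, LinearMap.sub_apply, LinearMap.sub_apply,
      Module.End.mul_apply, Module.End.mul_apply]
    show ho lam i (eo j x) - eo j (ho lam i x) - (cartan i j) • eo j x = 0
    rw [ho_eo, Int.cast_smul_eq_zsmul]; abel
  | hf i j =>
    rw [map_add, LieHom.map_lie, map_zsmul, rho0_fr, rho0_fr]
    apply op_ext; intro x
    rw [LieRing.of_associative_ring_bracket, LinearMap.add_apply, LinearMap.sub_apply,
      Module.End.mul_apply, Module.End.mul_apply]
    show ho lam i (fo lam j x) - fo lam j (ho lam i x) + (cartan i j) • fo lam j x = 0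
    rw [ho_fo, Int.cast_smul_eq_zsmul]; abel
  | de_zero =>
    rw [map_sub, LieHom.map_lie, rho0_fr, rho0_fr]
    apply op_ext; intro x
    rw [LieRing.of_associative_ring_bracket, LinearMap.sub_apply, LinearMap.sub_apply,
      Module.End.mul_apply, Module.End.mul_apply]
    show dd (eo 0 x) - eo 0 (dd x) - eo 0 x = 0
    rw [dd_eo, if_pos rfl, one_smul]; abel
  | df_zero =>
    rw [map_add, LieHom.map_lie, rho0_fr, rho0_fr]
    apply op_ext; intro x
    rw [LieRing.of_associative_ring_bracket, LinearMap.add_apply, LinearMap.sub_apply,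
      Module.End.mul_apply, Module.End.mul_apply]
    show dd (fo lam 0 x) - fo lam 0 (dd x) + fo lam 0 x = 0
    rw [dd_fo, if_pos rfl, one_smul]; abel
  | de_one =>
    rw [LieHom.map_lie, rho0_fr, rho0_fr]
    apply op_ext; intro x
    rw [LieRing.of_associative_ring_bracket, LinearMap.sub_apply,
      Module.End.mul_apply, Module.End.mul_apply]
    show dd (eo 1 x) - eo 1 (dd x) = 0
    rw [dd_eo, if_neg (by decide), zero_smul]; abel
  | df_one =>
    rw [LieHom.map_lie, rho0_fr, rho0_fr]
    apply op_ext; intro x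
    rw [LieRing.of_associative_ring_bracket, LinearMap.sub_apply,
      Module.End.mul_apply, Module.End.mul_apply]
    show dd (fo lam 1 x) - fo lam 1 (dd x) = 0
    rw [dd_fo, if_neg (by decide), zero_smul]; abel
  | serre_e i j h =>
    rw [LieHom.map_lie, LieHom.map_lie, LieHom.map_lie, rho0_fr, rho0_fr]
    apply op_ext; intro x
    have h1 := opD_serre_e lam i j h (x : Dl) x.2
    simp only [LieRing.of_associative_ring_bracket, LinearMap.sub_apply, Module.End.mul_apply,
      map_sub] at h1 ⊢
    exact h1
  | serre_f i j h =>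
    rw [LieHom.map_lie, LieHom.map_lie, LieHom.map_lie, rho0_fr, rho0_fr]
    apply op_ext; intro x
    have h1 := congrArg (fun G : Module.End ℂ Dl => G (x : Dl)) (opD_serre_f lam i j h)
    simp only [LieRing.of_associative_ring_bracket, LinearMap.sub_apply, Module.End.mul_apply,
      map_sub] at h1 ⊢
    exact h1

theorem relIdeal_le_ker : relIdeal ≤ (rho0 lam).ker := by
  unfold relIdeal
  rw [LieSubmodule.lieSpan_le]
  intro x hx
  exact (LieHom.mem_ker).2 (rho0_rel lam hx)

/-- The affine algebra acts on the model. -/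
def rho : AffineSl2 →ₗ⁅ℂ⁆ Module.End ℂ (L0 lam) :=
  { (relIdeal.toSubmodule).liftQ ((rho0 lam : FreeLieAlgebra ℂ Gen →ₗ[ℂ] Module.End ℂ (L0 lam)))
      (fun x hx => (LieHom.mem_ker).1 (relIdeal_le_ker lam hx)) with
    map_lie' := by
      intro x y
      induction x using Submodule.Quotient.induction_on
      induction y using Submodule.Quotient.induction_on
      exact LieHom.map_lie (rho0 lam) _ _ }

theorem rho_mk (x : FreeLieAlgebra ℂ Gen) :
    rho lam (LieSubmodule.Quotient.mk x : AffineSl2) = rho0 lam x := rfl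

/-- The enveloping algebra acts on the model. -/
def rhoU : U →ₐ[ℂ] Module.End ℂ (L0 lam) := UniversalEnvelopingAlgebra.lift ℂ (rho lam)

theorem rhoU_gen (g : Gen) : rhoU lam (gen g) = op lam g := by
  unfold rhoU gen
  rw [UniversalEnvelopingAlgebra.lift_ι_apply, rho_mk, rho0_fr]

end
end Pool.Agent.Lib.H78
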