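import Pool.Agent.Lib.H78.VermaForm

namespace Pool.Agent.Lib.H78
set_option linter.unusedSectionVars false
noncomputable section

variable (l n : ℕ)

/-- lowering words in the Verma module -/
def wM (J : List (Fin 2)) : Verma l n := (J.map (fun i => gen (.f i))).prod • vM l n

theorem wM_nil : wM l n [] = vM l n := by simp [wM]

theorem wM_cons (j : Fin 2) (J : List (Fin 2)) : wM l n (j :: J) = gen (.f j) • wM l n J := by
  simp [wM, mul_smul]

def spW : Submodule ℂ (Verma l n) := Submodule.span ℂ (Set.range (wM l n))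

theorem wM_mem (J : List (Fin 2)) : wM l n J ∈ spW l n := Submodule.subset_span ⟨J, rfl⟩

theorem spW_of {G : U} (h : ∀ J, G • wM l n J ∈ spW l n) : ∀ x ∈ spW l n, G • x ∈ spW l n := by
  intro x hx
  unfold spW at hx
  induction hx using Submodule.span_induction with
  | mem x hx => obtain ⟨J, rfl⟩ := hx; exact h J
  | zero => rw [smul_zero]; exact zero_mem _
  | add x y _ _ hx hy => rw [smul_add]; exact add_mem hx hy
  | smul a x _ hx => rw [smul_comm]; exact Submodule.smul_mem _ _ hx

theorem h_wM (i : Fin 2) (J : List (Fin 2)) : ∃ c : ℂ, gen (.h i) • wM l n J = c • wM l n J := by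
  induction J with
  | nil => exact ⟨_, by rw [wM_nil]; exact gen_smul_vM_h l n i⟩
  | cons j J ih =>
    obtain ⟨c, hc⟩ := ih
    refine ⟨c - ((cartan i j : ℤ) : ℂ), ?_⟩
    rw [wM_cons, ← mul_smul, gen_hf, sub_smul, mul_smul, hc, smul_comm (gen (.f j)), smul_assoc,
      sub_smul]

theorem d_wM (J : List (Fin 2)) : ∃ c : ℂ, gen .d • wM l n J = c • wM l n J := by
  induction J with
  | nil => exact ⟨0, by rw [wM_nil, gen_smul_vM_d, zero_smul]⟩
  | cons j J ih =>
    obtain ⟨c, hc⟩ := ih
    refine ⟨c - (if j = 0 then (1 : ℂ) else 0), ?_⟩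
    rw [wM_cons, ← mul_smul, gen_df, sub_smul, mul_smul, hc, smul_comm (gen (.f j)), smul_assoc,
      sub_smul]

theorem f_spW (i : Fin 2) : ∀ x ∈ spW l n, gen (.f i) • x ∈ spW l n :=
  spW_of l n fun J => by rw [← wM_cons]; exact wM_mem l n _

theorem h_spW (i : Fin 2) : ∀ x ∈ spW l n, gen (.h i) • x ∈ spW l n :=
  spW_of l n fun J => by
    obtain ⟨c, hc⟩ := h_wM l n i J
    rw [hc]; exact Submodule.smul_mem _ _ (wM_mem l n J)

theorem d_spW : ∀ x ∈ spW l n, gen .d • x ∈ spW l n :=
  spW_of l n fun J => by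
    obtain ⟨c, hc⟩ := d_wM l n J
    rw [hc]; exact Submodule.smul_mem _ _ (wM_mem l n J)

theorem e_spW (i : Fin 2) : ∀ x ∈ spW l n, gen (.e i) • x ∈ spW l n :=
  spW_of l n fun J => by
    induction J with
    | nil => rw [wM_nil, gen_smul_vM_e]; exact zero_mem _
    | cons j J ih =>
      rw [wM_cons, ← mul_smul]
      by_cases h : i = j
      · subst h
        rw [gen_ef_same, add_smul, mul_smul]
        exact add_mem (f_spW l n i _ ih) (h_spW l n i _ (wM_mem l n J))
      · rw [gen_ef_diff i j h, mul_smul]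
        exact f_spW l n j _ ih

theorem gen_spW (g : Gen) : ∀ x ∈ spW l n, gen g • x ∈ spW l n := by
  cases g with
  | e i => exact e_spW l n i
  | f i => exact f_spW l n i
  | h i => exact h_spW l n i
  | d => exact d_spW l n

theorem U_spW (u : U) : ∀ x ∈ spW l n, u • x ∈ spW l n := by
  have hu : u ∈ genAlg := by rw [genAlg_eq_top]; trivial
  unfold genAlg at hu
  induction hu using Algebra.adjoin_induction with
  | mem x hx => obtain ⟨g, rfl⟩ := hx; exact gen_spW l n g
  | algebraMap r => intro x hx; rw [algebraMap_smul]; exact Submodule.smul_mem _ _ hx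
  | add a b _ _ ha hb => intro x hx; rw [add_smul]; exact add_mem (ha x hx) (hb x hx)
  | mul a b _ _ ha hb => intro x hx; rw [mul_smul]; exact ha _ (hb x hx)

theorem spW_eq_top (m : Verma l n) : m ∈ spW l n := by
  induction m using Submodule.Quotient.induction_on with
  | _ u =>
  have h1 := U_spW l n u (vM l n) (by rw [← wM_nil]; exact wM_mem l n [])
  unfold vM at h1
  rwa [← Submodule.Quotient.mk_smul, smul_eq_mul, mul_one] at h1

/-- product of shifted grading elements -/
def QQ : ℕ → U
  | 0 => 1
  | k + 1 => (PP l n - ((k : ℂ) + 1) • (1 : U)) * QQ k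

def rr (s : ℂ) : ℕ → ℂ
  | 0 => 1
  | k + 1 => (s - (k + 1)) * rr s k

theorem QQ_smul (s : ℂ) (y : Verma l n) (hy : PP l n • y = s • y) (k : ℕ) :
    QQ l n k • y = rr s k • y := by
  induction k with
  | zero => simp [QQ, rr]
  | succ k ih =>
    rw [QQ, mul_smul, ih, smul_comm, sub_smul, hy, smul_assoc, one_smul, ← sub_smul, smul_smul, rr]
    congr 1; ring

theorem rr_zero_ne (k : ℕ) : rr 0 k ≠ 0 := by
  induction k with
  | zero => simp [rr]
  | succ k ih =>
    rw [rr]
    apply mul_ne_zero _ ih
    rw [zero_sub, neg_ne_zero]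
    exact_mod_cast Nat.succ_ne_zero k

theorem rr_nat (s k : ℕ) (h1 : 1 ≤ s) (h2 : s ≤ k) : rr (s : ℂ) k = 0 := by
  induction k with
  | zero => omega
  | succ k ih =>
    rw [rr]
    rcases Nat.lt_or_ge k s with h | h
    · have : s = k + 1 := by omega
      subst this
      push_cast
      simp
    · rw [ih h, mul_zero]

theorem PP_wM (J : List (Fin 2)) : PP l n • wM l n J = (J.length : ℂ) • wM l n J := by
  induction J with
  | nil => rw [wM_nil, (hwM l n).p_v]; simp
  | cons j J ih =>
    rw [wM_cons, ← mul_smul, PP_f, add_smul, mul_smul, ih, smul_comm (gen (.f j))]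
    rw [List.length_cons]
    push_cast
    rw [add_smul, one_smul]

theorem QQ_main (m : Verma l n) :
    ∃ k0, ∀ k, k0 ≤ k → QQ l n k • m = (rr 0 k * phiM l n m) • vM l n := by
  have hm := spW_eq_top l n m
  unfold spW at hm
  induction hm using Submodule.span_induction with
  | mem x hx =>
    obtain ⟨J, rfl⟩ := hx
    refine ⟨J.length, fun k hk => ?_⟩
    rw [QQ_smul l n _ _ (PP_wM l n J)]
    cases J with
    | nil =>
      rw [wM_nil, phiM_v]; simp
    | cons j J =>
      rw [rr_nat _ _ (by simp) hk, wM_cons, phiM_f]; simp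
  | zero => exact ⟨0, fun k _ => by simp⟩
  | add x y _ _ hx hy =>
    obtain ⟨a, ha⟩ := hx
    obtain ⟨b, hb⟩ := hy
    refine ⟨max a b, fun k hk => ?_⟩
    rw [smul_add, ha k (le_trans (le_max_left _ _) hk), hb k (le_trans (le_max_right _ _) hk),
      map_add, mul_add, add_smul]
  | smul c x _ hx =>
    obtain ⟨a, ha⟩ := hx
    refine ⟨a, fun k hk => ?_⟩
    rw [smul_comm, ha k hk, map_smul, smul_smul, smul_eq_mul]
    congr 1; ring

theorem vM_gen (N : Submodule U (Verma l n)) (h : vM l n ∈ N) : N = ⊤ := by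
  rw [eq_top_iff]
  intro m _
  induction m using Submodule.Quotient.induction_on with
  | _ u =>
  have h1 := N.smul_mem u h
  unfold vM at h1
  rwa [← Submodule.Quotient.mk_smul, smul_eq_mul, mul_one] at h1

theorem top_of_phi_ne (N : Submodule U (Verma l n)) (m : Verma l n) (hm : m ∈ N)
    (hp : phiM l n m ≠ 0) : N = ⊤ := by
  obtain ⟨k, hk⟩ := QQ_main l n m
  have h1 : QQ l n k • m ∈ N := N.smul_mem _ hm
  rw [hk k le_rfl] at h1
  apply vM_gen
  have h2 : rr 0 k * phiM l n m ≠ 0 := mul_ne_zero (rr_zero_ne k) hp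
  have h3 := N.smul_mem (algebraMap ℂ U (rr 0 k * phiM l n m)⁻¹) h1
  rw [algebraMap_smul, smul_smul, inv_mul_cancel₀ h2, one_smul] at h3
  exact h3

/-- the radical -/
def radM : Submodule U (Verma l n) where
  carrier := {m | ∀ u : U, phiM l n (u • m) = 0}
  add_mem' := by intro a b ha hb u; rw [smul_add, map_add, ha u, hb u, add_zero]
  zero_mem' := by intro u; rw [smul_zero, map_zero]
  smul_mem' := by intro c x hx u; rw [← mul_smul]; exact hx _

theorem maxProper_eq : maxProper l n = radM l n := by
  apply le_antisymm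
  · apply sSup_le
    intro N hN m hm u
    by_contra h
    exact hN (top_of_phi_ne l n N (u • m) (N.smul_mem u hm) h)
  · apply le_sSup
    intro h
    have h1 : vM l n ∈ radM l n := by rw [h]; trivial
    have h2 := h1 1
    rw [one_smul, phiM_v] at h2
    exact one_ne_zero h2

theorem maxProper_ne_top : maxProper l n ≠ ⊤ := by
  rw [maxProper_eq]
  intro h
  have h1 : vM l n ∈ radM l n := by rw [h]; trivial
  have h2 := h1 1
  rw [one_smul, phiM_v] at h2
  exact one_ne_zero h2

/-- `L l n` is a simple module, as it should be. -/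
theorem L_isSimple : IsSimpleModule U (L l n) := by
  rw [isSimpleModule_iff_isCoatom]
  refine ⟨maxProper_ne_top l n, fun N hN => ?_⟩
  by_contra h
  exact absurd (le_sSup h : N ≤ maxProper l n) (not_le_of_gt hN)

/-- vacuum expectation on the irreducible module -/
def phiL : L l n →ₗ[ℂ] ℂ :=
  (Submodule.liftQ ((maxProper l n).restrictScalars ℂ) (phiM l n) (by
    intro x hx
    have h1 : x ∈ radM l n := by rw [← maxProper_eq]; exact hx
    have h2 := h1 1
    rw [one_smul] at h2
    exact h2)).comp (Submodule.Quotient.restrictScalarsEquiv ℂ (maxProper l n)).symm.toLinearMap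

theorem phiL_mk (m : Verma l n) : phiL l n (Submodule.Quotient.mk m) = phiM l n m := rfl

theorem hwVec_eq : hwVec l n = Submodule.Quotient.mk (vM l n) := rfl

theorem hwL : HW (fun i => gen (.e i)) (fun i => gen (.f i)) (fun i => gen (.h i))
    (PP l n) (hwVec l n) (phiL l n) (lamOf l n) where
  ef_same := gen_ef_same
  ef_diff := gen_ef_diff
  he := gen_he
  hf := gen_hf
  pe := PP_e l n
  pf := PP_f l n
  e_v := by
    intro i
    rw [hwVec_eq, ← Submodule.Quotient.mk_smul, gen_smul_vM_e]; rfl
  h_v := by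
    intro i
    rw [hwVec_eq, ← Submodule.Quotient.mk_smul, gen_smul_vM_h]; rfl
  p_v := by
    rw [hwVec_eq, ← Submodule.Quotient.mk_smul, (hwM l n).p_v]; rfl
  phi_v := by rw [hwVec_eq, phiL_mk, phiM_v]
  phi_f := by
    intro i y
    induction y using Submodule.Quotient.induction_on with
    | _ m => rw [← Submodule.Quotient.mk_smul, phiL_mk, phiM_f]
  phi_h := by
    intro i y
    induction y using Submodule.Quotient.induction_on with
    | _ m => rw [← Submodule.Quotient.mk_smul, phiL_mk, phiM_h, phiL_mk]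
  phi_p := by
    intro y
    induction y using Submodule.Quotient.induction_on with
    | _ m => rw [← Submodule.Quotient.mk_smul, phiL_mk, (hwM l n).phi_p]

end
end Pool.Agent.Lib.H78
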