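import Pool.Agent.Lib.H78.Main

open scoped TensorProduct

namespace Pool.Agent.Lib.H78
set_option linter.unusedSectionVars false
noncomputable section

/-- `L l n` with the vector `hwVec l n` is an irreducible highest weight module. -/
theorem isIrr_L (l n : ℕ) : IsIrrHighestWeight l n (L l n) (hwVec l n) where
  simple := L_isSimple l n
  ne_zero := by
    intro h
    have h1 := (hwL l n).phi_v
    rw [h, map_zero] at h1
    exact zero_ne_one h1
  e_smul := (hwL l n).e_v
  h_zero_smul := by
    rw [algebraMap_smul]
    exact (hwL l n).h_v 0 |>.trans (by simp [lamOf])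
  h_one_smul := by
    rw [algebraMap_smul]
    exact (hwL l n).h_v 1 |>.trans (by simp [lamOf])
  d_smul := by
    rw [hwVec_eq, ← Submodule.Quotient.mk_smul, gen_smul_vM_d]; rfl

section
variable {l n : ℕ} {M : Type*} [AddCommGroup M] [Module U M] {v : M}

/-- the map from the Verma module to a highest weight module -/
def vermaMap (h : IsIrrHighestWeight l n M v) : Verma l n →ₗ[U] M :=
  (vermaIdeal l n).liftQ (LinearMap.toSpanSingleton U M v) (by
    unfold vermaIdeal
    rw [Submodule.span_le]
    intro x hx
    simp only [Set.mem_insert_iff, Set.mem_singleton_iff] at hx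
    rw [SetLike.mem_coe, LinearMap.mem_ker, LinearMap.toSpanSingleton_apply]
    rcases hx with rfl | rfl | rfl | rfl | rfl
    · exact h.e_smul 0
    · exact h.e_smul 1
    · rw [sub_smul, sub_eq_zero]; exact h.h_zero_smul
    · rw [sub_smul, sub_eq_zero]; exact h.h_one_smul
    · exact h.d_smul)

theorem vermaMap_vM (h : IsIrrHighestWeight l n M v) : vermaMap h (vM l n) = v := by
  unfold vermaMap vM
  rw [Submodule.liftQ_apply, LinearMap.toSpanSingleton_apply, one_smul]

theorem vermaMap_surjective (h : IsIrrHighestWeight l n M v) :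
    Function.Surjective (vermaMap h) := by
  have := h.simple
  rcases LinearMap.surjective_or_eq_zero (vermaMap h) with h1 | h1
  · exact h1
  · exfalso
    apply h.ne_zero
    rw [← vermaMap_vM h, h1]; rfl

theorem ker_vermaMap (h : IsIrrHighestWeight l n M v) :
    LinearMap.ker (vermaMap h) = maxProper l n := by
  have := h.simple
  have h1 : IsSimpleModule U (Verma l n ⧸ LinearMap.ker (vermaMap h)) :=
    IsSimpleModule.congr ((vermaMap h).quotKerEquivOfSurjective (vermaMap_surjective h))
  have h2 : IsCoatom (LinearMap.ker (vermaMap h)) := isSimpleModule_iff_isCoatom.1 h1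
  have h3 : LinearMap.ker (vermaMap h) ≤ maxProper l n := le_sSup h2.1
  rcases h3.eq_or_lt with h4 | h4
  · exact h4
  · exact absurd (h2.2 _ h4) (maxProper_ne_top l n)

/-- uniqueness of the irreducible highest weight module -/
def isoL (h : IsIrrHighestWeight l n M v) : L l n ≃ₗ[U] M :=
  (Submodule.quotEquivOfEq _ _ (ker_vermaMap h).symm).trans
    ((vermaMap h).quotKerEquivOfSurjective (vermaMap_surjective h))

theorem isoL_hwVec (h : IsIrrHighestWeight l n M v) : isoL h (hwVec l n) = v :=
  vermaMap_vM h

theorem isoL_symm (h : IsIrrHighestWeight l n M v) : (isoL h).symm v = hwVec l n := by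
  rw [LinearEquiv.symm_apply_eq, isoL_hwVec]

variable [Module ℂ M] [IsScalarTower ℂ U M]

/-- the coordinate of the highest weight vector -/
def phiOf (h : IsIrrHighestWeight l n M v) : M →ₗ[ℂ] ℂ where
  toFun y := phiL l n ((isoL h).symm y)
  map_add' := fun a b => by rw [map_add, map_add]
  map_smul' := fun c a => by
    rw [← algebraMap_smul U c a, map_smul, algebraMap_smul, map_smul]; rfl

theorem phiOf_apply (h : IsIrrHighestWeight l n M v) (y : M) :
    phiOf h y = phiL l n ((isoL h).symm y) := rfl

theorem hwOf (h : IsIrrHighestWeight l n M v) :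
    HW (fun i => gen (.e i)) (fun i => gen (.f i)) (fun i => gen (.h i))
      (PP l n) v (phiOf h) (lamOf l n) where
  ef_same := gen_ef_same
  ef_diff := gen_ef_diff
  he := gen_he
  hf := gen_hf
  pe := PP_e l n
  pf := PP_f l n
  e_v := h.e_smul
  h_v := by
    intro i
    fin_cases i
    · show gen (.h 0) • v = _
      rw [h.h_zero_smul, algebraMap_smul]; simp [lamOf]
    · show gen (.h 1) • v = _
      rw [h.h_one_smul, algebraMap_smul]; simp [lamOf]
  p_v := by
    rw [← isoL_hwVec h, ← map_smul, (hwL l n).p_v, map_zero]
  phi_v := by rw [phiOf_apply, isoL_symm, (hwL l n).phi_v]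
  phi_f := by
    intro i y
    rw [phiOf_apply, map_smul]; exact (hwL l n).phi_f i _
  phi_h := by
    intro i y
    rw [phiOf_apply, map_smul, phiOf_apply]; exact (hwL l n).phi_h i _
  phi_p := by
    intro y
    rw [phiOf_apply, map_smul]; exact (hwL l n).phi_p _

end

/-- The Weyl module with highest weight `3 ω_0` is reducible in characteristic `23`. -/
theorem weylReducible (M : Type*) [AddCommGroup M] [Module U M] (v : M)
    (h : IsIrrHighestWeight 3 0 M v) (F : Type*) [Field F] [CharP F 23] :
    WeylReducible F M v := by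
  let _ : Module ℂ M := Module.compHom M (algebraMap ℂ U)
  have : IsScalarTower ℂ U M := ⟨fun c u m => by
    show (c • u) • m = (algebraMap ℂ U c) • u • m
    rw [← mul_smul, Algebra.smul_def]⟩
  exact reducible_of_HW F M v (hwOf h) rfl rfl

end
end Pool.Agent.Lib.H78
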