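import Pool.Agent.Lib.H78.HighestWeight

namespace Pool.Agent.Lib.H78
set_option linter.unusedSectionVars false

/-- Binary trees, representing noncommutative polynomials in two letters with integer
coefficients. -/
inductive T
  | z : T
  | n : Int → T → T → T
  deriving DecidableEq

namespace T

def mk (c : Int) (l r : T) : T :=
  match l, r with
  | z, z => if c = 0 then z else n c z z
  | l, r => n c l r

def add : T → T → T
  | z, t => t
  | t, z => t
  | n c l r, n c' l' r' => mk (c + c') (add l l') (add r r')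

def smul (k : Int) : T → T
  | z => z
  | n c l r => n (k * c) (smul k l) (smul k r)

/-- action of e_0 -/
def e0 : Int → Int → T → T
  | _, _, z => z
  | a, b, n _ l r =>
    add (mk 0 (e0 (a - 1) b l) (e0 a (b - 1) r)) (smul (3 - 2 * (a - 1) + 2 * b) l)

def e1 : Int → Int → T → T
  | _, _, z => z
  | a, b, n _ l r =>
    add (mk 0 (e1 (a - 1) b l) (e1 a (b - 1) r)) (smul (0 + 2 * a - 2 * (b - 1)) r)

def phi : T → Int
  | z => 0
  | n c _ _ => c

def chk : Nat → Int → Int → T → Bool
  | _, _, _, z => true
  | 0, _, _, n c _ _ => c % 23 == 0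
  | k + 1, a, b, n c l r => chk k (a - 1) b (e0 a b (n c l r)) && chk k a (b - 1) (e1 a b (n c l r))

def pair : T → Int → Int → T → Int
  | z, _, _, _ => 0
  | n c l r, a, b, s => c * phi s + pair l (a - 1) b (e0 a b s) + pair r a (b - 1) (e1 a b s)

/-- homogeneity -/
def Hom : Int → Int → T → Prop
  | _, _, z => True
  | a, b, n c l r => (c = 0 ∨ (a = 0 ∧ b = 0)) ∧ Hom (a - 1) b l ∧ Hom a (b - 1) r

theorem Hom_mk {a b c : Int} {l r : T} (hc : c = 0 ∨ (a = 0 ∧ b = 0)) (hl : Hom (a - 1) b l)
    (hr : Hom a (b - 1) r) : Hom a b (mk c l r) := by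
  unfold mk
  split
  · split_ifs
    · trivial
    · exact ⟨hc, hl, hr⟩
  · exact ⟨hc, hl, hr⟩

theorem Hom_add {a b : Int} {s t : T} (hs : Hom a b s) (ht : Hom a b t) : Hom a b (add s t) := by
  induction s generalizing a b t with
  | z => simpa [add] using ht
  | n c l r ihl ihr =>
    cases t with
    | z => simpa [add] using hs
    | n c' l' r' =>
      rw [add]
      obtain ⟨h1, h2, h3⟩ := hs
      obtain ⟨h1', h2', h3'⟩ := ht
      apply Hom_mk _ (ihl h2 h2') (ihr h3 h3')
      rcases h1 with h1 | h1
      · rcases h1' with h1' | h1'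
        · left; rw [h1, h1']; rfl
        · right; exact h1'
      · right; exact h1

theorem Hom_smul {a b : Int} (k : Int) {t : T} (ht : Hom a b t) : Hom a b (smul k t) := by
  induction t generalizing a b with
  | z => trivial
  | n c l r ihl ihr =>
    obtain ⟨h1, h2, h3⟩ := ht
    refine ⟨?_, ihl h2, ihr h3⟩
    rcases h1 with h1 | h1
    · left; rw [h1]; simp
    · right; exact h1

theorem Hom_e0 {a b : Int} {t : T} (ht : Hom a b t) : Hom (a - 1) b (e0 a b t) := by
  induction t generalizing a b with
  | z => trivial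
  | n c l r ihl ihr =>
    obtain ⟨_, h2, h3⟩ := ht
    rw [e0]
    apply Hom_add
    · exact Hom_mk (Or.inl rfl) (ihl h2) (ihr h3)
    · exact Hom_smul _ h2

theorem Hom_e1 {a b : Int} {t : T} (ht : Hom a b t) : Hom a (b - 1) (e1 a b t) := by
  induction t generalizing a b with
  | z => trivial
  | n c l r ihl ihr =>
    obtain ⟨_, h2, h3⟩ := ht
    rw [e1]
    apply Hom_add
    · exact Hom_mk (Or.inl rfl) (ihl h2) (ihr h3)
    · exact Hom_smul _ h3

noncomputable section

variable {U : Type*} [Ring U] [Algebra ℂ U]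

/-- evaluation with letters read from the left -/
def evL (X : Fin 2 → U) : T → U
  | z => 0
  | n c l r => ((c : ℤ) : U) + X 0 * evL X l + X 1 * evL X r

/-- evaluation with letters read from the right -/
def evR (X : Fin 2 → U) : T → U
  | z => 0
  | n c l r => ((c : ℤ) : U) + evR X l * X 0 + evR X r * X 1

theorem evL_mk (X : Fin 2 → U) (c : Int) (l r : T) : evL X (mk c l r) = evL X (n c l r) := by
  unfold mk
  split
  · split_ifs with h
    · subst h; simp [evL]
    · rfl
  · rfl

theorem evR_mk (X : Fin 2 → U) (c : Int) (l r : T) : evR X (mk c l r) = evR X (n c l r) := by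
  unfold mk
  split
  · split_ifs with h
    · subst h; simp [evR]
    · rfl
  · rfl

theorem evL_add (X : Fin 2 → U) (s t : T) : evL X (add s t) = evL X s + evL X t := by
  induction s generalizing t with
  | z => simp [add, evL]
  | n c l r ihl ihr =>
    cases t with
    | z => simp [add, evL]
    | n c' l' r' =>
      rw [add, evL_mk, evL, ihl, ihr, evL, evL]
      push_cast
      noncomm_ring

theorem evR_add (X : Fin 2 → U) (s t : T) : evR X (add s t) = evR X s + evR X t := by
  induction s generalizing t with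
  | z => simp [add, evR]
  | n c l r ihl ihr =>
    cases t with
    | z => simp [add, evR]
    | n c' l' r' =>
      rw [add, evR_mk, evR, ihl, ihr, evR, evR]
      push_cast
      noncomm_ring

theorem evL_smul (X : Fin 2 → U) (k : Int) (t : T) : evL X (smul k t) = (k : ℤ) • evL X t := by
  induction t with
  | z => simp [smul, evL]
  | n c l r ihl ihr =>
    rw [smul, evL, ihl, ihr, evL, smul_add, smul_add, mul_smul_comm, mul_smul_comm]
    simp only [zsmul_eq_mul]
    push_cast
    rfl

theorem evR_smul (X : Fin 2 → U) (k : Int) (t : T) : evR X (smul k t) = (k : ℤ) • evR X t := by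
  induction t with
  | z => simp [smul, evR]
  | n c l r ihl ihr =>
    rw [smul, evR, ihl, ihr, evR, smul_add, smul_add, smul_mul_assoc, smul_mul_assoc]
    simp only [zsmul_eq_mul]
    push_cast
    rfl

theorem comm_evL {X : Fin 2 → U} {G : U} {c : Fin 2 → ℂ} (h : ∀ i, G * X i = X i * G + c i • X i)
    {a b : Int} {t : T} (ht : Hom a b t) :
    G * evL X t = evL X t * G + ((a : ℂ) * c 0 + (b : ℂ) * c 1) • evL X t := by
  induction t generalizing a b with
  | z => simp [evL]
  | n k l r ihl ihr =>
    obtain ⟨h1, h2, h3⟩ := ht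
    have il := ihl h2
    have ir := ihr h3
    have hk : ((a : ℂ) * c 0 + (b : ℂ) * c 1) • ((k : ℤ) : U) = 0 := by
      rcases h1 with h1 | ⟨h1, h1'⟩
      · rw [h1]; simp
      · rw [h1, h1']; simp
    have hG : G * ((k : ℤ) : U) = ((k : ℤ) : U) * G := (Int.cast_commute k G).symm.eq
    rw [evL, mul_add, mul_add, ← mul_assoc, ← mul_assoc, h, h, add_mul, add_mul, smul_mul_assoc,
      smul_mul_assoc, mul_assoc (X 0), mul_assoc (X 1), il, ir, smul_add, smul_add, hk, hG]
    simp only [mul_add, add_mul, mul_smul_comm, mul_assoc]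
    push_cast
    module

theorem comm_evR {X : Fin 2 → U} {G : U} {c : Fin 2 → ℂ} (h : ∀ i, G * X i = X i * G + c i • X i)
    {a b : Int} {t : T} (ht : Hom a b t) :
    G * evR X t = evR X t * G + ((a : ℂ) * c 0 + (b : ℂ) * c 1) • evR X t := by
  induction t generalizing a b with
  | z => simp [evR]
  | n k l r ihl ihr =>
    obtain ⟨h1, h2, h3⟩ := ht
    have il := ihl h2
    have ir := ihr h3
    have hk : ((a : ℂ) * c 0 + (b : ℂ) * c 1) • ((k : ℤ) : U) = 0 := by
      rcases h1 with h1 | ⟨h1, h1'⟩
      · rw [h1]; simp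
      · rw [h1, h1']; simp
    have hG : G * ((k : ℤ) : U) = ((k : ℤ) : U) * G := (Int.cast_commute k G).symm.eq
    rw [evR, mul_add, mul_add, ← mul_assoc, ← mul_assoc, il, ir, add_mul, add_mul, smul_mul_assoc,
      smul_mul_assoc, mul_assoc (evR X l), mul_assoc (evR X r), h, h, smul_add, smul_add, hk, hG]
    simp only [mul_add, add_mul, mul_smul_comm, mul_assoc]
    push_cast
    module

variable {V : Type*} [AddCommGroup V] [Module ℂ V] [Module U V] [IsScalarTower ℂ U V]
variable {E F H : Fin 2 → U} {P : U} {v : V} {φ : V →ₗ[ℂ] ℂ} {lam : Fin 2 → ℤ}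
variable (hw : HW E F H P v φ lam)

omit [Module ℂ V] [IsScalarTower ℂ U V] in
theorem intCast_smul (k : ℤ) (y : V) : ((k : ℤ) : U) • y = k • y := by
  rw [Int.cast_smul_eq_zsmul]

include hw

/-- weight of a homogeneous tree, lowering side -/
theorem H_evL {a b : Int} {t : T} (ht : Hom a b t) (i : Fin 2) :
    H i • evL F t • v = ((lam i - cartan i 0 * a - cartan i 1 * b : ℤ) : ℂ) • evL F t • v := by
  have h1 : ∀ j, H i * F j = F j * H i + (-((cartan i j : ℤ) : ℂ)) • F j := by
    intro j
    rw [hw.hf, neg_smul, sub_eq_add_neg]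
  rw [← mul_smul, comm_evL h1 ht, add_smul, mul_smul, hw.h_v, smul_comm (evL F t), smul_assoc,
    ← add_smul]
  congr 1
  push_cast
  ring

/-- weight of a homogeneous tree, functional side -/
theorem evR_H {a b : Int} {t : T} (ht : Hom a b t) (i : Fin 2) (y : V) :
    φ (evR E t • H i • y) = ((lam i - cartan i 0 * a - cartan i 1 * b : ℤ) : ℂ) *
      φ (evR E t • y) := by
  have h1 := comm_evR (hw.he i) ht
  have h2 : evR E t * H i = H i * evR E t
      - ((a : ℂ) * ((cartan i 0 : ℤ) : ℂ) + (b : ℂ) * ((cartan i 1 : ℤ) : ℂ)) • evR E t := by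
    rw [h1]; simp
  rw [← mul_smul, h2, sub_smul, map_sub, mul_smul, hw.phi_h, smul_assoc,
    LinearMap.map_smul φ, smul_eq_mul]
  push_cast
  ring

theorem E0_evL (h3 : lam 0 = 3) {a b : Int} {t : T} (ht : Hom a b t) :
    E 0 • evL F t • v = evL F (e0 a b t) • v := by
  induction t generalizing a b with
  | z => simp [evL, e0]
  | n c l r ihl ihr =>
    obtain ⟨_, h2, h4⟩ := ht
    have hl := ihl h2
    have hr := ihr h4
    have hH := H_evL hw h2 0
    rw [e0, evL_add, evL_mk, evL_smul, evL, evL, add_smul, add_smul, smul_add, smul_add,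
      intCast_smul, smul_comm (E 0) c v, hw.e_v, smul_zero, zero_add]
    rw [mul_smul, mul_smul, ← mul_smul (E 0) (F 0), ← mul_smul (E 0) (F 1), hw.ef_same 0,
      hw.ef_diff 0 1 (by decide), add_smul, mul_smul, mul_smul, hl, hr, hH]
    rw [add_smul, add_smul, add_smul, mul_smul, mul_smul, smul_assoc (3 - 2 * (a - 1) + 2 * b)]
    have hc : lam 0 - cartan 0 0 * (a - 1) - cartan 0 1 * b = 3 - 2 * (a - 1) + 2 * b := by
      rw [h3]; simp [cartan]
    rw [hc, Int.cast_smul_eq_zsmul]
    simp only [Int.cast_zero, zero_smul, zero_add]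
    abel

theorem E1_evL (h3 : lam 1 = 0) {a b : Int} {t : T} (ht : Hom a b t) :
    E 1 • evL F t • v = evL F (e1 a b t) • v := by
  induction t generalizing a b with
  | z => simp [evL, e1]
  | n c l r ihl ihr =>
    obtain ⟨_, h2, h4⟩ := ht
    have hl := ihl h2
    have hr := ihr h4
    have hH := H_evL hw h4 1
    rw [e1, evL_add, evL_mk, evL_smul, evL, evL, add_smul, add_smul, smul_add, smul_add,
      intCast_smul, smul_comm (E 1) c v, hw.e_v, smul_zero, zero_add]
    rw [mul_smul, mul_smul, ← mul_smul (E 1) (F 0), ← mul_smul (E 1) (F 1), hw.ef_same 1,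
      hw.ef_diff 1 0 (by decide), add_smul, mul_smul, mul_smul, hl, hr, hH]
    rw [add_smul, add_smul, add_smul, mul_smul, mul_smul, smul_assoc (0 + 2 * a - 2 * (b - 1))]
    have hc : lam 1 - cartan 1 0 * a - cartan 1 1 * (b - 1) = 0 + 2 * a - 2 * (b - 1) := by
      rw [h3]; simp [cartan]
    rw [hc, Int.cast_smul_eq_zsmul]
    simp only [Int.cast_zero, zero_smul, zero_add]
    abel

theorem evR_F0 (h3 : lam 0 = 3) {a b : Int} {t : T} (ht : Hom a b t) (y : V) :
    φ (evR E t • F 0 • y) = φ (evR E (e0 a b t) • y) := by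
  induction t generalizing a b y with
  | z => simp [evR, e0]
  | n c l r ihl ihr =>
    obtain ⟨_, h2, h4⟩ := ht
    have hH := evR_H hw h2 0 y
    rw [e0, evR_add, evR_mk, evR_smul, evR, evR, add_smul, add_smul, map_add, map_add,
      intCast_smul, ← smul_comm (F 0) c y, hw.phi_f, zero_add]
    rw [mul_smul, mul_smul, ← mul_smul (E 0) (F 0), ← mul_smul (E 1) (F 0), hw.ef_same 0,
      hw.ef_diff 1 0 (by decide), add_smul, mul_smul, mul_smul, smul_add, map_add, ihl h2, ihr h4,
      hH]
    rw [add_smul, add_smul, add_smul, mul_smul, mul_smul, smul_assoc (3 - 2 * (a - 1) + 2 * b)]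
    have hc : lam 0 - cartan 0 0 * (a - 1) - cartan 0 1 * b = 3 - 2 * (a - 1) + 2 * b := by
      rw [h3]; simp [cartan]
    rw [hc]
    simp only [Int.cast_zero, zero_smul, zero_add, map_add, map_zsmul, zsmul_eq_mul]
    ring

theorem evR_F1 (h3 : lam 1 = 0) {a b : Int} {t : T} (ht : Hom a b t) (y : V) :
    φ (evR E t • F 1 • y) = φ (evR E (e1 a b t) • y) := by
  induction t generalizing a b y with
  | z => simp [evR, e1]
  | n c l r ihl ihr =>
    obtain ⟨_, h2, h4⟩ := ht
    have hH := evR_H hw h4 1 y
    rw [e1, evR_add, evR_mk, evR_smul, evR, evR, add_smul, add_smul, map_add, map_add,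
      intCast_smul, ← smul_comm (F 1) c y, hw.phi_f, zero_add]
    rw [mul_smul, mul_smul, ← mul_smul (E 0) (F 1), ← mul_smul (E 1) (F 1), hw.ef_same 1,
      hw.ef_diff 0 1 (by decide), add_smul, mul_smul, mul_smul, smul_add, map_add, ihl h2, ihr h4,
      hH]
    rw [add_smul, add_smul, add_smul, mul_smul, mul_smul, smul_assoc (0 + 2 * a - 2 * (b - 1))]
    have hc : lam 1 - cartan 1 0 * a - cartan 1 1 * (b - 1) = 0 + 2 * a - 2 * (b - 1) := by
      rw [h3]; simp [cartan]
    rw [hc]
    simp only [Int.cast_zero, zero_smul, zero_add, map_add, map_zsmul, zsmul_eq_mul]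
    ring

theorem phi_evL (t : T) : φ (evL F t • v) = ((phi t : ℤ) : ℂ) := by
  cases t with
  | z => simp [evL, phi]
  | n c l r =>
    rw [evL, add_smul, add_smul, map_add, map_add, mul_smul, mul_smul, hw.phi_f, hw.phi_f,
      intCast_smul, map_zsmul, hw.phi_v]
    simp [phi]

theorem phi_evR (t : T) : φ (evR E t • v) = ((phi t : ℤ) : ℂ) := by
  cases t with
  | z => simp [evR, phi]
  | n c l r =>
    rw [evR, add_smul, add_smul, map_add, map_add, mul_smul, mul_smul, hw.e_v, hw.e_v,
      intCast_smul, map_zsmul, hw.phi_v]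
    simp [phi]

/-- soundness of `chk`, lowering side; the word is applied from its head on -/
theorem chk_evL (h0 : lam 0 = 3) (h1 : lam 1 = 0) (k : ℕ) {a b : Int} {t : T} (ht : Hom a b t)
    (hc : chk k a b t = true) (I : List (Fin 2)) (hI : I.length = k) :
    ∃ m : ℤ, φ ((I.reverse.map E).prod • evL F t • v) = 23 * (m : ℂ) := by
  induction k generalizing a b t I with
  | zero =>
    have : I = [] := List.length_eq_zero_iff.1 hI
    subst this
    simp only [List.reverse_nil, List.map_nil, List.prod_nil, one_smul]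
    rw [phi_evL hw]
    cases t with
    | z => exact ⟨0, by simp [phi]⟩
    | n c l r =>
      have h : c % 23 = 0 := by simpa [chk] using hc
      refine ⟨c / 23, ?_⟩
      have : c = 23 * (c / 23) := by omega
      rw [phi]
      exact_mod_cast this
  | succ k ih =>
    cases t with
    | z => exact ⟨0, by simp [evL]⟩
    | n c l r =>
      have h : chk k (a - 1) b (e0 a b (n c l r)) = true ∧ chk k a (b - 1) (e1 a b (n c l r)) = true := by
        simpa [chk] using hc
      cases I with
      | nil => simp at hI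
      | cons i I =>
        have hI' : I.length = k := by simpa using hI
        rw [List.reverse_cons, List.map_append, List.prod_append, mul_smul]
        fin_cases i
        · have := ih (Hom_e0 ht) h.1 I hI'
          rw [← E0_evL hw h0 ht] at this
          simpa using this
        · have := ih (Hom_e1 ht) h.2 I hI'
          rw [← E1_evL hw h1 ht] at this
          simpa using this

/-- soundness of `chk`, functional side -/
theorem chk_evR (h0 : lam 0 = 3) (h1 : lam 1 = 0) (k : ℕ) {a b : Int} {t : T} (ht : Hom a b t)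
    (hc : chk k a b t = true) (I : List (Fin 2)) (hI : I.length = k) :
    ∃ m : ℤ, φ (evR E t • (I.map F).prod • v) = 23 * (m : ℂ) := by
  induction k generalizing a b t I with
  | zero =>
    have : I = [] := List.length_eq_zero_iff.1 hI
    subst this
    simp only [List.map_nil, List.prod_nil, one_smul]
    rw [phi_evR hw]
    cases t with
    | z => exact ⟨0, by simp [phi]⟩
    | n c l r =>
      have h : c % 23 = 0 := by simpa [chk] using hc
      refine ⟨c / 23, ?_⟩
      have : c = 23 * (c / 23) := by omega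
      rw [phi]
      exact_mod_cast this
  | succ k ih =>
    cases t with
    | z => exact ⟨0, by simp [evR]⟩
    | n c l r =>
      have h : chk k (a - 1) b (e0 a b (n c l r)) = true ∧ chk k a (b - 1) (e1 a b (n c l r)) = true := by
        simpa [chk] using hc
      cases I with
      | nil => simp at hI
      | cons i I =>
        have hI' : I.length = k := by simpa using hI
        rw [List.map_cons, List.prod_cons, mul_smul]
        fin_cases i
        · have := ih (Hom_e0 ht) h.1 I hI'
          rw [← evR_F0 hw h0 ht] at this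
          simpa using this
        · have := ih (Hom_e1 ht) h.2 I hI'
          rw [← evR_F1 hw h1 ht] at this
          simpa using this

/-- soundness of `pair` -/
theorem pair_eq (h0 : lam 0 = 3) (h1 : lam 1 = 0) (t s : T) {a b : Int} (hs : Hom a b s) :
    φ (evR E t • evL F s • v) = ((pair t a b s : ℤ) : ℂ) := by
  induction t generalizing a b s with
  | z => simp [evR, pair]
  | n c l r ihl ihr =>
    have hl := ihl _ (Hom_e0 hs)
    have hr := ihr _ (Hom_e1 hs)
    rw [← E0_evL hw h0 hs] at hl
    rw [← E1_evL hw h1 hs] at hr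
    rw [evR, add_smul, add_smul, map_add, map_add, mul_smul, mul_smul, hl, hr, intCast_smul,
      map_zsmul, phi_evL hw, pair]
    push_cast
    rw [zsmul_eq_mul]

end
end T
end Pool.Agent.Lib.H78
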