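import Pool.Agent.Lib.H78.Defs

namespace Pool.Agent.Lib.H78
noncomputable section

/-- The left ideal of `U` generated by `e_0`, `e_1`, `h_0 - (l - n)`, `h_1 - n` and `d`. -/
def vermaIdeal (l n : ℕ) : Submodule U U :=
  Submodule.span U {gen (.e 0), gen (.e 1), gen (.h 0) - algebraMap ℂ U ((l : ℂ) - n),
    gen (.h 1) - algebraMap ℂ U n, gen .d}

/-- The Verma module with highest weight `(l - n) ω_0 + n ω_1`. -/
abbrev Verma (l n : ℕ) : Type := U ⧸ vermaIdeal l n

/-- The sum of all proper submodules of the Verma module. -/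
def maxProper (l n : ℕ) : Submodule U (Verma l n) := sSup {N | N ≠ ⊤}

/-- The irreducible highest weight module `L_ℂ(λ)`, `λ = (l - n) ω_0 + n ω_1`: the quotient of the
Verma module by the sum of all its proper submodules. -/
abbrev L (l n : ℕ) : Type := Verma l n ⧸ maxProper l n

/-- The highest weight vector `v_λ` of `L l n`. -/
def hwVec (l n : ℕ) : L l n := Submodule.Quotient.mk (Submodule.Quotient.mk 1)

end
end Pool.Agent.Lib.H78
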