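import Pool.Agent.Lib.H78.Relations
import Pool.Agent.Lib.H78.Certificate
import Pool.Agent.Lib.H78.VermaDefs

namespace Pool.Agent.Lib.H78
set_option linter.unusedSectionVars false
noncomputable section

/-- the highest weight -/
def lamOf (l n : ℕ) : Fin 2 → ℤ := ![(l : ℤ) - n, n]

def vacL (lam : Fin 2 → ℤ) : L0 lam := ⟨vac, by rw [← wvec_nil lam]; exact wvec_mem lam []⟩

/-- vacuum expectation on the enveloping algebra -/
def PhiU (lam : Fin 2 → ℤ) : U →ₗ[ℂ] ℂ where
  toFun u := ((rhoU lam u (vacL lam) : L0 lam) : Dl) []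
  map_add' x y := by rw [map_add]; rfl
  map_smul' r x := by rw [map_smul]; rfl

theorem PhiU_apply (lam : Fin 2 → ℤ) (u : U) :
    PhiU lam u = ((rhoU lam u (vacL lam) : L0 lam) : Dl) [] := rfl

/-- annihilator of the vacuum -/
def annVac (lam : Fin 2 → ℤ) : Submodule U U where
  carrier := {u | rhoU lam u (vacL lam) = 0}
  add_mem' := by
    intro a b ha hb
    show rhoU lam (a + b) (vacL lam) = 0
    have ha' : rhoU lam a (vacL lam) = 0 := ha
    have hb' : rhoU lam b (vacL lam) = 0 := hb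
    rw [map_add, LinearMap.add_apply, ha', hb', add_zero]
  zero_mem' := by show rhoU lam 0 (vacL lam) = 0; rw [map_zero]; rfl
  smul_mem' := by
    intro c x hx
    show rhoU lam (c * x) (vacL lam) = 0
    have hx' : rhoU lam x (vacL lam) = 0 := hx
    rw [map_mul, Module.End.mul_apply, hx', map_zero]

theorem mem_annVac (lam : Fin 2 → ℤ) (u : U) : u ∈ annVac lam ↔ rhoU lam u (vacL lam) = 0 := Iff.rfl

theorem vermaIdeal_le (l n : ℕ) : vermaIdeal l n ≤ annVac (lamOf l n) := by
  unfold vermaIdeal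
  rw [Submodule.span_le]
  intro x hx
  have he : ∀ i, rhoU (lamOf l n) (gen (.e i)) (vacL (lamOf l n)) = 0 := by
    intro i
    rw [rhoU_gen]
    apply Subtype.ext
    rw [op_coe]
    exact eo_vac i
  have hh : ∀ i, rhoU (lamOf l n) (gen (.h i)) (vacL (lamOf l n))
      = ((lamOf l n i : ℤ) : ℂ) • vacL (lamOf l n) := by
    intro i
    rw [rhoU_gen]
    apply Subtype.ext
    rw [op_coe]
    exact ho_vac (lamOf l n) i
  simp only [Set.mem_insert_iff, Set.mem_singleton_iff] at hx
  show x ∈ annVac (lamOf l n)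
  rw [mem_annVac]
  rcases hx with rfl | rfl | rfl | rfl | rfl
  · exact he 0
  · exact he 1
  · have h0 : ((lamOf l n 0 : ℤ) : ℂ) = (l : ℂ) - n := by simp [lamOf]
    rw [map_sub, LinearMap.sub_apply, hh, AlgHom.commutes, Module.algebraMap_end_apply, h0]
    exact sub_self _
  · have h1 : ((lamOf l n 1 : ℤ) : ℂ) = (n : ℂ) := by simp [lamOf]
    rw [map_sub, LinearMap.sub_apply, hh, AlgHom.commutes, Module.algebraMap_end_apply, h1]
    exact sub_self _
  · rw [rhoU_gen]
    apply Subtype.ext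
    rw [op_coe]
    exact dd_vac

/-- vacuum expectation on the Verma module -/
def phiM (l n : ℕ) : Verma l n →ₗ[ℂ] ℂ :=
  (Submodule.liftQ ((vermaIdeal l n).restrictScalars ℂ) (PhiU (lamOf l n)) (by
    intro x hx
    have h1 : x ∈ annVac (lamOf l n) := vermaIdeal_le l n hx
    rw [mem_annVac] at h1
    rw [LinearMap.mem_ker, PhiU_apply, h1]
    rfl)).comp (Submodule.Quotient.restrictScalarsEquiv ℂ (vermaIdeal l n)).symm.toLinearMap

theorem phiM_mk (l n : ℕ) (u : U) : phiM l n (Submodule.Quotient.mk u) = PhiU (lamOf l n) u := rfl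

/-- principal grading element -/
def PP (l n : ℕ) : U :=
  (-2 : ℂ) • gen .d - (1 / 2 : ℂ) • (gen (.h 1) - ((lamOf l n 1 : ℤ) : ℂ) • (1 : U))

def vM (l n : ℕ) : Verma l n := Submodule.Quotient.mk 1

theorem gen_smul_vM_e (l n : ℕ) (i : Fin 2) : gen (.e i) • vM l n = 0 := by
  unfold vM
  rw [← Submodule.Quotient.mk_smul, smul_eq_mul, mul_one, Submodule.Quotient.mk_eq_zero]
  apply Submodule.subset_span
  fin_cases i <;> simp

theorem gen_smul_vM_h (l n : ℕ) (i : Fin 2) :
    gen (.h i) • vM l n = ((lamOf l n i : ℤ) : ℂ) • vM l n := by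
  have h1 : (gen (.h i) - algebraMap ℂ U ((lamOf l n i : ℤ) : ℂ)) • vM l n = 0 := by
    unfold vM
    rw [← Submodule.Quotient.mk_smul, smul_eq_mul, mul_one, Submodule.Quotient.mk_eq_zero]
    apply Submodule.subset_span
    fin_cases i <;> simp [lamOf]
  rw [sub_smul, sub_eq_zero] at h1
  rw [h1, algebraMap_smul]

theorem gen_smul_vM_d (l n : ℕ) : gen .d • vM l n = 0 := by
  unfold vM
  rw [← Submodule.Quotient.mk_smul, smul_eq_mul, mul_one, Submodule.Quotient.mk_eq_zero]
  apply Submodule.subset_span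
  simp

theorem PP_e (l n : ℕ) (j : Fin 2) : PP l n * gen (.e j) = gen (.e j) * PP l n - gen (.e j) := by
  unfold PP
  rw [sub_mul, smul_mul_assoc, gen_de, smul_mul_assoc, sub_mul, gen_he, smul_mul_assoc, one_mul,
    mul_sub, mul_smul_comm, mul_smul_comm, mul_sub, mul_smul_comm, mul_one]
  fin_cases j
  · simp [cartan]; module
  · simp [cartan]; module

theorem PP_f (l n : ℕ) (j : Fin 2) : PP l n * gen (.f j) = gen (.f j) * PP l n + gen (.f j) := by
  unfold PP
  rw [sub_mul, smul_mul_assoc, gen_df, smul_mul_assoc, sub_mul, gen_hf, smul_mul_assoc, one_mul,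
    mul_sub, mul_smul_comm, mul_smul_comm, mul_sub, mul_smul_comm, mul_one]
  fin_cases j
  · simp [cartan]; module
  · simp [cartan]; module

theorem phiM_f (l n : ℕ) (i : Fin 2) (y : Verma l n) : phiM l n (gen (.f i) • y) = 0 := by
  induction y using Submodule.Quotient.induction_on with
  | _ u =>
  rw [← Submodule.Quotient.mk_smul, smul_eq_mul, phiM_mk, PhiU_apply, map_mul,
    Module.End.mul_apply, rhoU_gen, op_coe]
  exact fo_nil _ _ _

theorem phiM_h (l n : ℕ) (i : Fin 2) (y : Verma l n) :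
    phiM l n (gen (.h i) • y) = ((lamOf l n i : ℤ) : ℂ) * phiM l n y := by
  induction y using Submodule.Quotient.induction_on with
  | _ u =>
  rw [← Submodule.Quotient.mk_smul, smul_eq_mul, phiM_mk, phiM_mk, PhiU_apply, map_mul,
    Module.End.mul_apply, rhoU_gen, op_coe]
  show ho _ _ _ _ = _
  rw [ho_apply]
  simp [wt, PhiU_apply]

theorem phiM_d (l n : ℕ) (y : Verma l n) : phiM l n (gen .d • y) = 0 := by
  induction y using Submodule.Quotient.induction_on with
  | _ u =>
  rw [← Submodule.Quotient.mk_smul, smul_eq_mul, phiM_mk, PhiU_apply, map_mul,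
    Module.End.mul_apply, rhoU_gen, op_coe]
  show dd _ _ = _
  rw [dd_apply]
  simp [c0]

theorem phiM_v (l n : ℕ) : phiM l n (vM l n) = 1 := by
  unfold vM
  rw [phiM_mk, PhiU_apply, map_one]
  show vac [] = 1
  simp [vac]

/-- The Verma module satisfies the abstract axioms. -/
theorem hwM (l n : ℕ) : HW (fun i => gen (.e i)) (fun i => gen (.f i)) (fun i => gen (.h i))
    (PP l n) (vM l n) (phiM l n) (lamOf l n) where
  ef_same := gen_ef_same
  ef_diff := gen_ef_diff
  he := gen_he
  hf := gen_hf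
  pe := PP_e l n
  pf := PP_f l n
  e_v := gen_smul_vM_e l n
  h_v := gen_smul_vM_h l n
  p_v := by
    unfold PP
    rw [sub_smul, smul_assoc, gen_smul_vM_d, smul_assoc, sub_smul, gen_smul_vM_h, smul_assoc,
      one_smul, sub_self]
    simp
  phi_v := phiM_v l n
  phi_f := phiM_f l n
  phi_h := phiM_h l n
  phi_p := by
    intro y
    unfold PP
    rw [sub_smul, map_sub, smul_assoc, map_smul, phiM_d, smul_assoc, map_smul, sub_smul, map_sub,
      phiM_h, smul_assoc, one_smul, map_smul]
    simp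

end
end Pool.Agent.Lib.H78
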